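import Pool.Agent.T2h51.LS.Par

/-! The parity argument for generic closed curves. -/

set_option autoImplicit false
open Complex Set Topology Metric

namespace Pool.Agent.T2h51.LS
open Pool.Agent.H763R2 Pool.Agent.H763R2.An

variable {q : ℝ → ℂ} {M : ℂ → ℝ} {κ : ZMod 2}

open Classical in
theorem par_sel (hG : Gen q) (S : Sg q M κ) {u : ℂ} {F : ℝ × ℝ → ℂ}
    (hF : ∀ p : ℝ × ℝ, F p = u * GG q M p.1 p.2) (hu : u ≠ 0) {N : ℝ × ℝ → ℝ} {B : Set (ℝ × ℝ)}
    (hB : IsOpen B) (hc : Continuous (sel F N B)) (ne : ∀ p, 0 ≤ N p → F p ≠ 0)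
    {a b c d : ℝ} (hbd : Bd (fun x y => sel F N B (x, y)) a b c d)
    (hU : ∀ x ∈ Icc a b, ∀ y ∈ Icc c d, (x, y) ∈ B → (x, y) ∈ UU)
    (h3 : ∀ x ∈ Icc a b, |x| ≤ 3) :
    Pw (Wd (fun x y => sel F N B (x, y)) a b c d)
      (∑ z ∈ (hG.fin 3).toFinset.filter (fun z => z ∈ B ∧ InR a b c d z), io q z) := by
  have L := hG.L
  have hc' : Continuous fun p : ℝ × ℝ => (fun x y => sel F N B (x, y)) p.1 p.2 := hc
  have := Wd_sum hc' ((hG.fin 3).toFinset.filter (fun z => z ∈ B)) (io q) (fun z hz => by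
    rw [Finset.mem_filter, Set.Finite.mem_toFinset] at hz
    obtain ⟨⟨hz, -⟩, hzB⟩ := hz
    obtain ⟨r, hr, hg⟩ := germ_io hG S hz
    obtain ⟨ε, hε, hb⟩ := Metric.isOpen_iff.1 hB z hzB
    refine ⟨min r (ε / 2), by positivity, fun s hs t ht => ?_⟩
    have hs1 : |s| ≤ min r (ε / 2) := abs_le.2 hs
    have ht1 : |t| ≤ min r (ε / 2) := abs_le.2 ht
    have hs2 := hs1.trans (min_le_left _ _)
    have ht2 := ht1.trans (min_le_left _ _)
    have hs3 := hs1.trans (min_le_right _ _)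
    have ht3 := ht1.trans (min_le_right _ _)
    have m1 : (z.1 + s, z.2 + t) ∈ B := hb (by
      rw [mem_ball, Prod.dist_eq, Real.dist_eq, Real.dist_eq]
      simp only [add_sub_cancel_left]
      exact max_lt (by linarith) (by linarith))
    have m2 : (z.1 - s, z.2 - t) ∈ B := hb (by
      rw [mem_ball, Prod.dist_eq, Real.dist_eq, Real.dist_eq]
      simp only [sub_sub_cancel_left, abs_neg]
      exact max_lt (by linarith) (by linarith))
    have e1 : sel F N B (z.1 + s, z.2 + t) = F (z.1 + s, z.2 + t) := by unfold sel; rw [if_pos m1]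
    have e2 : sel F N B (z.1 - s, z.2 - t) = F (z.1 - s, z.2 - t) := by unfold sel; rw [if_pos m2]
    rw [e1, e2, hF, hF]
    simp only
    rw [hg s (abs_le.1 hs2) t (abs_le.1 ht2)]
    ring) _ a b c d hbd (fun x hx y hy h0 => by
      rw [Finset.mem_filter, Set.Finite.mem_toFinset]
      have hm : (x, y) ∈ B := by
        by_contra hn
        unfold sel at h0
        rw [if_neg hn] at h0
        exact cut_ne (ne (x, y)) h0
      have hF0 : F (x, y) = 0 := by
        unfold sel at h0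
        rwa [if_pos hm] at h0
      rw [hF] at hF0
      have h00 := (mul_eq_zero.1 hF0).resolve_left hu
      exact ⟨⟨(Zq_iff L S (hU x hx y hy hm)).1 h00, h3 x hx⟩, hm⟩) rfl
  rw [Finset.filter_filter] at this
  exact this

theorem sgk_cont {k : ℝ → ℂ} (hk : Continuous k) : Continuous fun p : ℝ × ℝ => sgk k p.1 p.2 := by
  unfold sgk
  fun_prop

theorem sgk_diag (k : ℝ → ℂ) (x : ℝ) : sgk k x x = 1 := by unfold sgk; simp

theorem sgk_y {k : ℝ → ℂ} {n : ℤ} (hn : Odd n) (hkn : ∀ t, k (t + 1) = k t + n * (2 * Real.pi * I))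
    (x y : ℝ) : sgk k x (y + 1) = - sgk k x y := by
  unfold sgk
  rw [hkn, show (k y + n * (2 * Real.pi * I) - k x) = (k y - k x) + n * (2 * Real.pi * I) by ring,
    add_im]
  have : ((n : ℂ) * (2 * Real.pi * I)).im = n * (2 * Real.pi) := by simp
  rw [this, show ((k y - k x).im + n * (2 * Real.pi)) / 2 = (k y - k x).im / 2 + n * Real.pi by ring,
    Real.cos_add_int_mul_pi, hn.neg_one_zpow]
  ring

theorem sgk_per {k : ℝ → ℂ} {n : ℤ} (hkn : ∀ t, k (t + 1) = k t + n * (2 * Real.pi * I))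
    (x y : ℝ) : sgk k (x + 1) (y + 1) = sgk k x y := by
  unfold sgk
  rw [hkn, hkn, add_sub_add_right_eq_sub]

/-- chords through the point are long -/
theorem sgk_ne {k : ℝ → ℂ} {O : ℂ} (hk : ∀ t, exp (k t) = q t - O) {x y r : ℝ}
    (h : ‖q y - q x‖ ≤ r) (h1 : r ≤ √2 * ‖q x - O‖) (h2 : r ≤ √2 * ‖q y - O‖) :
    sgk k x y ≠ 0 := by
  intro h0
  unfold sgk at h0
  obtain ⟨j, hj⟩ := Real.cos_eq_zero_iff.1 h0
  have him : (k y - k x).im = (2 * j + 1) * Real.pi := by linarith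
  set ρ : ℝ := Real.exp (k y - k x).re with hρ
  have ρ0 : 0 < ρ := Real.exp_pos _
  have hexp : exp (k y - k x) = -(ρ : ℂ) := by
    conv_lhs => rw [← re_add_im (k y - k x)]
    rw [exp_add, ← ofReal_exp, ← hρ, him]
    have : exp (((2 * j + 1) * Real.pi : ℝ) * I) = -1 := by
      rw [show (((2 * j + 1) * Real.pi : ℝ) : ℂ) * I = Real.pi * I + j * (2 * Real.pi * I) by
        push_cast; ring, exp_add, exp_pi_mul_I, exp_int_mul_two_pi_mul_I]
      ring
    rw [this]; ring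
  rw [exp_sub, hk, hk] at hexp
  have hx0 : q x - O ≠ 0 := by rw [← hk]; exact exp_ne_zero _
  rw [div_eq_iff hx0] at hexp
  have e1 : ‖q y - O‖ = ρ * ‖q x - O‖ := by
    rw [hexp, norm_mul, norm_neg, norm_real, Real.norm_of_nonneg ρ0.le]
  have e2 : ‖q y - q x‖ = (1 + ρ) * ‖q x - O‖ := by
    rw [show q y - q x = (q y - O) - (q x - O) by ring, hexp,
      show -(ρ : ℂ) * (q x - O) - (q x - O) = -((1 + ρ : ℝ) : ℂ) * (q x - O) by push_cast; ring,
      norm_mul, norm_neg, norm_real, Real.norm_of_nonneg (by linarith)]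
  have hp : 0 < ‖q x - O‖ := norm_pos_iff.2 hx0
  rw [e1] at h2
  rw [e2] at h
  have hs := Real.sqrt_nonneg 2
  have hs2 : √2 * √2 = 2 := Real.mul_self_sqrt (by norm_num)
  have hs3 : √2 < 2 := by nlinarith
  have a1 : 1 + ρ ≤ √2 := by
    by_contra hc
    push Not at hc
    nlinarith
  have a2 : 1 + ρ ≤ √2 * ρ := by
    by_contra hc
    push Not at hc
    nlinarith
  nlinarith

theorem k_unif {k : ℝ → ℂ} (hk : Continuous k) {n : ℤ}
    (hkn : ∀ t, k (t + 1) = k t + n * (2 * Real.pi * I)) :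
    ∃ η > 0, ∀ s t : ℝ, |s - t| ≤ η → ‖k s - k t‖ < 1 := by
  have L : Loop fun t : ℝ => k t - t * (n * (2 * Real.pi * I)) := ⟨by fun_prop, fun t => by
    rw [hkn]; push_cast; ring⟩
  obtain ⟨N0, hN0, hN⟩ := L.fine (δ := 1 / 2) (by norm_num)
  set A : ℝ := ‖(n * (2 * Real.pi * I) : ℂ)‖ + 1 with hA
  have hA1 : 0 < A := by positivity
  have hN0' : (0:ℝ) < N0 := by exact_mod_cast hN0
  refine ⟨min (1 / N0) (1 / (2 * A)), by positivity, fun s t hst => ?_⟩
  have h1 := hN N0 le_rfl s t (hst.trans (min_le_left _ _))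
  have h2 := hst.trans (min_le_right _ _)
  have h3 : ‖(s - t : ℂ) * (n * (2 * Real.pi * I))‖ ≤ 1 / 2 := by
    rw [norm_mul]
    have e : ‖(s - t : ℂ)‖ = |s - t| := by
      rw [← ofReal_sub, norm_real, Real.norm_eq_abs]
    rw [e]
    have : ‖(n * (2 * Real.pi * I) : ℂ)‖ ≤ A := by rw [hA]; linarith
    calc |s - t| * ‖(n * (2 * Real.pi * I) : ℂ)‖ ≤ 1 / (2 * A) * A :=
          mul_le_mul h2 this (norm_nonneg _) (by positivity)
      _ = 1 / 2 := by field_simp
  have e : k s - k t = (k s - s * (n * (2 * Real.pi * I)) - (k t - t * (n * (2 * Real.pi * I)))) +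
      (s - t : ℂ) * (n * (2 * Real.pi * I)) := by ring
  rw [e]
  calc _ ≤ _ := norm_add_le _ _
    _ < 1 := by linarith

theorem sgk_near {k : ℝ → ℂ} {x y : ℝ} (h : ‖k y - k x‖ < 1) : 0 < sgk k x y := by
  unfold sgk
  have h1 := (abs_im_le_norm (k y - k x)).trans_lt h
  rw [abs_lt] at h1
  have hπ := Real.pi_gt_three
  exact Real.cos_pos_of_mem_Ioo ⟨by linarith [h1.1], by linarith [h1.2]⟩

open Classical in
/-- the two counts together -/
theorem count_total (hG : Gen q) {k : ℝ → ℂ} {n : ℤ} (hn : Odd n)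
    (hkn : ∀ t, k (t + 1) = k t + n * (2 * Real.pi * I)) {η : ℝ} (hη : 0 < η)
    {B1 B2 : Set (ℝ × ℝ)} (m1 : ∀ p : ℝ × ℝ, p ∈ B1 ↔ p.1 < p.2 ∧ sgk k p.1 p.2 < 0)
    (m2 : ∀ p : ℝ × ℝ, p ∈ B2 ↔ p.2 < p.1 + 1 ∧ 0 < sgk k p.1 p.2)
    (hm : ∀ x y, (x, y) ∈ Zq q → |x| ≤ 3 → ∀ n : ℤ, η < |x - n| ∧ η < |y - n|) :
    (∑ z ∈ (hG.fin 3).toFinset.filter (fun z => z ∈ B1 ∧
      InR 0 1 0 (1 - η) z), io q z) +
    ∑ z ∈ (hG.fin 3).toFinset.filter (fun z => z ∈ B2 ∧ InR 0 (1 - η) 1 2 z), io q z =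
    ∑ p ∈ (P_fin hG).toFinset, fk k p := by
  have hL := hG.L
  have hmZ : ∀ z, z ∈ (hG.fin 3).toFinset ↔ z ∈ Zq q ∧ |z.1| ≤ 3 := fun z => by simp
  have hmP : ∀ p : ℝ × ℝ, p ∈ (P_fin hG).toFinset ↔ SqP q p.1 p.2 := fun p => by simp
  have c1 : (((hG.fin 3).toFinset.filter (fun z => z ∈ B1 ∧ InR 0 1 0 (1 - η) z)).filter (fun z => q z.1 ≠ q z.2)) =
      (P_fin hG).toFinset.filter (fun p => p.1 < p.2 ∧ sgk k p.1 p.2 < 0) := by
    ext ⟨x, y⟩
    simp only [Finset.mem_filter, hmZ, hmP, m1]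
    constructor
    · rintro ⟨⟨⟨hz, -⟩, ⟨hxy, hsg⟩, ⟨x0, x1⟩, ⟨y0, y1⟩⟩, hne⟩
      simp only at x0 x1 y0 y1 hne
      exact ⟨⟨⟨x0.le, x1⟩, ⟨y0.le, by linarith⟩, hne, hz.2.2, hz.2.1⟩, hxy, hsg⟩
    · rintro ⟨hN, h1, h2⟩
      have hx := hN.ha
      have hy := hN.hb
      have hz := (hN.toZ hL).1 h1
      have hxx : |x| ≤ 3 := by rw [abs_le]; constructor <;> linarith [hx.1, hx.2]
      have hm0 := (hm x y hz hxx 0).1
      have hm1 := (hm x y hz hxx 1).2
      have hm2 := (hm x y hz hxx 0).2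
      rw [Int.cast_zero, sub_zero, abs_of_nonneg hx.1] at hm0
      rw [Int.cast_zero, sub_zero, abs_of_nonneg hy.1] at hm2
      rw [Int.cast_one, abs_sub_comm, abs_of_pos (by linarith [hy.2])] at hm1
      exact ⟨⟨⟨hz, hxx⟩, ⟨h1, h2⟩, ⟨by simp only; linarith, by simp only; linarith [hx.2]⟩,
        ⟨by simp only; linarith, by simp only; linarith⟩⟩, hN.ne⟩
  have c3 : (((hG.fin 3).toFinset.filter (fun z => z ∈ B2 ∧ InR 0 (1 - η) 1 2 z)).filter (fun z => q z.1 ≠ q z.2)).card =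
      ((P_fin hG).toFinset.filter (fun p => p.2 < p.1 ∧ sgk k p.1 p.2 < 0)).card := by
    refine Finset.card_nbij' (fun z => (z.1, z.2 - 1)) (fun p => (p.1, p.2 + 1)) ?_ ?_ ?_ ?_
    · rintro ⟨x, y⟩ hz
      simp only [Finset.coe_filter, mem_ofPred_eq, hmP, hmZ, Finset.mem_filter, m2] at hz ⊢
      obtain ⟨⟨⟨hz, -⟩, ⟨hxy, hsg⟩, ⟨x0, x1⟩, ⟨y0, y1⟩⟩, hne⟩ := hz
      simp only at x0 x1 y0 y1
      have e : q (y - 1) = q y := by
        have := hL.per (y - 1); rw [sub_add_cancel] at this; exact this.symm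
      have hs : SqP q x (y - 1) := by
        refine ⟨⟨by linarith, by linarith⟩, ⟨by linarith, by linarith⟩, by rw [e]; exact hne, ?_, ?_⟩
        · have : CC q x (y - 1) = CC q x y := by unfold CC; rw [e]
          rw [this]; exact hz.2.2
        · have : DD q x (y - 1) = DD q x y := by unfold DD; rw [e]
          rw [this]; exact hz.2.1
      have e2 := sgk_y hn hkn x (y - 1)
      rw [sub_add_cancel] at e2
      exact ⟨hs, by linarith, by linarith⟩
    · rintro ⟨a, b⟩ hp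
      simp only [Finset.coe_filter, mem_ofPred_eq, hmP, hmZ, Finset.mem_filter, m2] at hp ⊢
      obtain ⟨hN, h1, h2⟩ := hp
      have hx := hN.ha
      have hy := hN.hb
      have hz := (hN.toZ hL).2.1 h1
      have hxx : |a| ≤ 3 := by rw [abs_le]; constructor <;> linarith [hx.2, hx.1]
      have hm1 := (hm a (b + 1) hz hxx 1).2
      have hm2 := (hm a (b + 1) hz hxx 1).1
      have hm3 := (hm a (b + 1) hz hxx 0).1
      rw [Int.cast_one, add_sub_cancel_right, abs_of_nonneg hy.1] at hm1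
      rw [Int.cast_one, abs_sub_comm, abs_of_pos (by linarith [hx.2])] at hm2
      rw [Int.cast_zero, sub_zero, abs_of_nonneg hx.1] at hm3
      refine ⟨⟨⟨hz, hxx⟩, ⟨by linarith, by rw [sgk_y hn hkn]; linarith⟩,
        ⟨by simp only; linarith, by simp only; linarith⟩,
        ⟨by simp only; linarith, by simp only; linarith [hy.2]⟩⟩, ?_⟩
      rw [hL.per]; exact hN.ne
    · rintro ⟨x, y⟩ _; simp
    · rintro ⟨x, y⟩ _; simp
  rw [io_sum, io_sum, c1, c3]
  have e : ∑ p ∈ (P_fin hG).toFinset, fk k p =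
      (((P_fin hG).toFinset.filter (fun p => sgk k p.1 p.2 < 0)).card : ZMod 2) := by
    unfold fk
    rw [Finset.sum_boole]
  rw [e, ← Nat.cast_add]
  congr 1
  rw [← Finset.card_union_of_disjoint]
  · congr 1
    ext p
    simp only [Finset.mem_union, Finset.mem_filter]
    constructor
    · rintro (⟨h, -, h2⟩ | ⟨h, -, h2⟩) <;> exact ⟨h, h2⟩
    · rintro ⟨h, h2⟩
      rcases lt_or_gt_of_ne (((hmP p).1 h).toZ hL).2.2 with h3 | h3
      · exact Or.inl ⟨h, h3, h2⟩
      · exact Or.inr ⟨h, h3, h2⟩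
  · rw [Finset.disjoint_left]
    intro p hp hp'
    rw [Finset.mem_filter] at hp hp'
    linarith [hp.2.1, hp'.2.1]

theorem SS_const {η : ℝ} (h0 : 0 < η) (h1 : η < 1 / 2) {u : ℂ} (hu : u ≠ 0) :
    SS (fun _ _ => u) η = 0 := by
  unfold SS
  have : ∀ a b : ℝ, a ≤ b → dl (fun _ => u) a b = 0 := fun a b hab => by
    rw [dl_eq (K := fun _ => log u) hab continuousOn_const (fun t _ => exp_log hu), sub_self]
  rw [this η (1 - η) (by linarith), this 0 η (by linarith), this (1 - η) 1 (by linarith),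
    this 1 (1 + η) (by linarith)]
  simp

/-- the contradiction for generic closed curves -/
theorem gen_core (hG : Gen q) (S : Sg q M κ) (h0 : ∀ y, (0, y) ∉ Zq q) {e : ℂ} {η1 : ℝ}
    (he : e ≠ 0) (hη1 : 0 < η1) (hl : Lin q 0 e η1)
    {O : ℂ} {k : ℝ → ℂ} (hk : Continuous k) (hke : ∀ t, exp (k t) = q t - O) {n : ℤ} (hn : Odd n)
    (hkn : ∀ t, k (t + 1) = k t + n * (2 * Real.pi * I))
    {γ : ℝ → ℝ → ℝ} (hγ : Continuous fun p : ℝ × ℝ => γ p.1 p.2)
    (γ1 : ∀ x y, γ (x + 1) y = γ x y) (γ2 : ∀ x y, γ x (y + 1) = γ x y) (γ0 : ∀ x y, 0 < γ x y)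
    (γa : ∀ x y, γ x y ≤ √2 * ‖q x - O‖) (γb : ∀ x y, γ x y ≤ √2 * ‖q y - O‖)
    {u : ℂ} (hu : u ≠ 0) (big : ∀ x y, γ x y ≤ ‖q y - q x‖ → GG q M x y ≠ 0)
    (ray : ∀ x y, ‖q y - q x‖ = γ x y → u * GG q M x y ∈ slitPlane) : False := by
  classical
  have L := hG.L
  have J : Inj0 q := fun t h1 h2 h => h0 t (dbl_mem h1 (by linarith) h.symm)
  have hGc := GG_cont L S.cont
  have nz : ∀ x y, (x, y) ∈ UU → (x, y) ∉ Zq q → GG q M x y ≠ 0 := fun x y hU hz h =>
    hz ((Zq_iff L S hU).1 h)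
  have hz : NZ0 q M := by
    intro y h1 h2
    have u1 : ((0, y) : ℝ × ℝ) ∈ UU := ⟨h1, by simp only; linarith⟩
    have u2 : ((y, 1) : ℝ × ℝ) ∈ UU := ⟨h2, by simp only; linarith⟩
    refine ⟨GG_ne.1 (nz _ _ u1 (h0 y)), GG_ne.1 (nz _ _ u2 fun h => ?_)⟩
    have := (nint L h0 h 1).2
    simp at this
  obtain ⟨ε, Fl⟩ := flat_base L J he hη1 hl
  obtain ⟨m0, hm0⟩ := loc_of_flat L J S rfl Fl
  obtain ⟨η0, hη0, hmar⟩ := margin hG h0
  obtain ⟨ηk, hηk, hun⟩ := k_unif hk hkn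
  obtain ⟨j, hj⟩ := exists_nat_one_div_lt (show 0 < min η0 (min (ηk / 2) (1 / 2)) by positivity)
  set m := m0 + (j + 1) with hm
  have hmk : (1 : ℝ) / m ≤ 1 / (j + 1) := by
    apply one_div_le_one_div_of_le (by positivity)
    rw [hm]; push_cast
    have : (0:ℝ) ≤ m0 := Nat.cast_nonneg m0
    linarith
  have hm1 := hmk.trans_lt hj
  have hml := hm0 m (by omega)
  set η : ℝ := 1 / m with hη
  have hηp : 0 < η := by
    rw [hη]; apply one_div_pos.2
    have : 0 < m := by omega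
    exact_mod_cast this
  have hη2 : η < η0 := hm1.trans_le (min_le_left _ _)
  have hη3 : η < ηk / 2 := hm1.trans_le ((min_le_right _ _).trans (min_le_left _ _))
  have hη4 : η < 1 / 2 := hm1.trans_le ((min_le_right _ _).trans (min_le_right _ _))
  have hmar' : ∀ x y, (x, y) ∈ Zq q → |x| ≤ 3 → ∀ n : ℤ, η < |x - n| ∧ η < |y - n| :=
    fun x y h hx n => ⟨hη2.trans (hmar x y h hx n).1, hη2.trans (hmar x y h hx n).2⟩
  have nzm : ∀ x y, (x, y) ∈ UU → |x| ≤ 3 → ∀ n : ℤ, (|x - n| ≤ η ∨ |y - n| ≤ η) →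
      GG q M x y ≠ 0 := by
    intro x y hU hx n h
    refine nz x y hU fun hz => ?_
    obtain ⟨a1, a2⟩ := hmar' x y hz hx n
    rcases h with h | h <;> linarith
  have hne : ∀ x y, Stc η (x, y) → GG q M x y ≠ 0 := by
    intro x y h
    obtain ⟨hU, hx, n, hn⟩ := Stc_UU hηp hη4 h
    exact nzm x y hU hx n hn
  have hodd : Pw (SS (GG q M) η) 1 := by
    rcases hml with Λ | Λ
    · exact SS_odd L S hz Λ hne
    · have hz' : NZ0 q (fun z => - M z) := by
        intro y h1 h2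
        have := hz y h1 h2
        simpa using this
      have := SS_odd L (S.neg L) hz' Λ (fun x y h => by
        rw [GG_neg]; exact neg_ne_zero.2 (hne x y h))
      have e1 : GG q (fun z => - M z) = fun x y => - GG q M x y := by
        funext x y; exact GG_neg x y
      rw [e1, SS_neg hηp hη4 hGc hne] at this
      exact this
  -- the maps
  set F : ℝ × ℝ → ℂ := fun p => u * GG q M p.1 p.2 with hF
  set N : ℝ × ℝ → ℝ := fun p => ‖q p.2 - q p.1‖ - γ p.1 p.2 with hN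
  have cq := L.cont
  have cF : Continuous F := by rw [hF]; exact continuous_const.mul hGc
  have cN : Continuous N := by rw [hN]; fun_prop
  have hray : ∀ p, N p = 0 → F p ∈ slitPlane := fun p hp => ray p.1 p.2 (by
    rw [hN] at hp; simp only at hp; linarith)
  have hbig : ∀ p, 0 ≤ N p → F p ≠ 0 := fun p hp => mul_ne_zero hu (big p.1 p.2 (by
    rw [hN] at hp; simp only at hp; linarith))
  have hsN : ∀ x y, N (x, y) ≤ 0 → sgk k x y ≠ 0 := fun x y h => sgk_ne hke (by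
    rw [hN] at h; simp only at h; linarith : ‖q y - q x‖ ≤ γ x y) (γa x y) (γb x y)
  have csg := sgk_cont hk
  have sg1 : ∀ x, sgk k x (x + 1) < 0 := fun x => by rw [sgk_y hn hkn, sgk_diag]; norm_num
  set B1 : Set (ℝ × ℝ) := {p | p.1 < p.2 ∧ sgk k p.1 p.2 < 0} with hB1
  set B2 : Set (ℝ × ℝ) := {p | p.2 < p.1 + 1 ∧ 0 < sgk k p.1 p.2} with hB2
  have oB1 : IsOpen B1 := (isOpen_lt continuous_fst continuous_snd).inter
    (isOpen_lt csg continuous_const)
  have oB2 : IsOpen B2 := (isOpen_lt continuous_snd (by fun_prop)).inter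
    (isOpen_lt continuous_const csg)
  have cE1 : Continuous (sel F N B1) := by
    refine sel_cont cF cN hray oB1 fun p hp hpB => ?_
    rcases lt_or_gt_of_ne (hsN p.1 p.2 hp) with h | h
    · have h1 : p.2 < p.1 := by
        rcases lt_trichotomy p.2 p.1 with g | g | g
        · exact g
        · rw [g, sgk_diag] at h; norm_num at h
        · exact absurd ⟨g, h⟩ hpB
      filter_upwards [(isOpen_lt continuous_snd continuous_fst).mem_nhds h1] with z hz hz'
      have : z.2 < z.1 := hz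
      linarith [hz'.1]
    · filter_upwards [(isOpen_lt continuous_const csg).mem_nhds h] with z hz hz'
      have : 0 < sgk k z.1 z.2 := hz
      linarith [hz'.2]
  have cE2 : Continuous (sel F N B2) := by
    refine sel_cont cF cN hray oB2 fun p hp hpB => ?_
    rcases lt_or_gt_of_ne (hsN p.1 p.2 hp) with h | h
    · filter_upwards [(isOpen_lt csg continuous_const).mem_nhds h] with z hz hz'
      have : sgk k z.1 z.2 < 0 := hz
      linarith [hz'.2]
    · have h1 : p.1 + 1 < p.2 := by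
        rcases lt_trichotomy p.2 (p.1 + 1) with g | g | g
        · exact absurd ⟨g, h⟩ hpB
        · rw [g] at h; linarith [sg1 p.1]
        · exact g
      filter_upwards [(isOpen_lt (f := fun z : ℝ × ℝ => z.1 + 1) (g := fun z : ℝ × ℝ => z.2)
        (by fun_prop) continuous_snd).mem_nhds h1] with z hz hz'
      have : z.1 + 1 < z.2 := hz
      linarith [hz'.1]
  have cH : Continuous fun p => cut (F p) (N p) := cut_cont cF cN hray
  have neH : ∀ x y : ℝ, cut (F (x, y)) (N (x, y)) ≠ 0 := fun x y => cut_ne (hbig (x, y))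
  have pF : ∀ x y, F (x + 1, y + 1) = F (x, y) := fun x y => by
    rw [hF]; simp only; rw [GG_per L]
  have pN : ∀ x y, N (x + 1, y + 1) = N (x, y) := fun x y => by
    rw [hN]; simp only; rw [L.per, L.per, γ1, γ2]
  have pH : ∀ x y : ℝ, cut (F (x + 1, y + 1)) (N (x + 1, y + 1)) = cut (F (x, y)) (N (x, y)) :=
    fun x y => by rw [pF, pN]
  have pE2 : ∀ x y, sel F N B2 (x + 1, y + 1) = sel F N B2 (x, y) := fun x y => by
    have : (x + 1, y + 1) ∈ B2 ↔ (x, y) ∈ B2 := by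
      rw [hB2]
      simp only [mem_ofPred_eq, sgk_per hkn]
      constructor
      · rintro ⟨h1, h2⟩; exact ⟨by linarith, h2⟩
      · rintro ⟨h1, h2⟩; exact ⟨by linarith, h2⟩
    unfold sel
    by_cases h : (x, y) ∈ B2
    · rw [if_pos (this.2 h), if_pos h, pF]
    · rw [if_neg (fun h' => h (this.1 h')), if_neg h, pH]
  have dH : ∀ x : ℝ, cut (F (x, x)) (N (x, x)) = 1 := fun x => by
    have e1 : F (x, x) = 0 := by
      rw [hF]
      simp only
      have : GG q M x x = 0 := by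
        by_contra hc
        refine GG_ne.1 hc ⟨?_, ?_⟩
        · rw [S.zero L]; refine ⟨x, ?_⟩; unfold DD Sq.Dv; ring
        · rw [S.zero L]; refine ⟨x, ?_⟩; unfold CC Sq.Cv; ring
      rw [this, mul_zero]
    rw [e1]
    apply cut_zero
    rw [hN]
    simp only [sub_self, norm_zero, zero_sub]
    linarith [γ0 x x]
  have g1 : ∀ x y, y ≤ x + 2 * η → sel F N B1 (x, y) = cut (F (x, y)) (N (x, y)) := by
    intro x y h
    unfold sel
    rw [if_neg]
    rintro ⟨h1, h2⟩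
    simp only at h1 h2
    have := sgk_near (hun y x (by rw [abs_of_pos (by linarith)]; linarith))
    linarith
  have g2 : ∀ x y, x + 1 - 2 * η ≤ y → sel F N B2 (x, y) = cut (F (x, y)) (N (x, y)) := by
    intro x y h
    unfold sel
    rw [if_neg]
    rintro ⟨h1, h2⟩
    simp only at h1 h2
    have h3 := sgk_near (hun y (x + 1) (by
      rw [abs_sub_comm, abs_of_pos (by linarith)]; linarith))
    have h4 := sgk_y hn hkn (x + 1) y
    rw [sgk_per hkn] at h4
    linarith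
  have nE : ∀ (B : Set (ℝ × ℝ)) x y, GG q M x y ≠ 0 → sel F N B (x, y) ≠ 0 := by
    intro B x y h
    unfold sel
    split_ifs
    · exact mul_ne_zero hu h
    · exact neH x y
  have nE' : ∀ (B : Set (ℝ × ℝ)) x y, (x, y) ∉ B → sel F N B (x, y) ≠ 0 := by
    intro B x y h
    unfold sel
    rw [if_neg h]
    exact neH x y
  have a0 : ∀ {x : ℝ}, 0 ≤ x → x ≤ 1 → |x| ≤ 3 := fun h1 h2 => by
    rw [abs_le]; constructor <;> linarith
  -- nonvanishing near integral coordinates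
  have E1n : ∀ x y : ℝ, 0 ≤ x → x ≤ 1 → y < x + 1 → ∀ n : ℤ, (|x - n| ≤ η ∨ |y - n| ≤ η) →
      sel F N B1 (x, y) ≠ 0 := by
    intro x y hx hx1 hy n h
    by_cases hxy : x < y
    · exact nE B1 x y (nzm x y ⟨hxy, hy⟩ (a0 hx hx1) n h)
    · exact nE' B1 x y fun h' => hxy h'.1
  have E2n : ∀ x y : ℝ, 0 ≤ x → x ≤ 1 → x < y → ∀ n : ℤ, (|x - n| ≤ η ∨ |y - n| ≤ η) →
      sel F N B2 (x, y) ≠ 0 := by
    intro x y hx hx1 hy n h
    by_cases hxy : y < x + 1
    · exact nE B2 x y (nzm x y ⟨hy, hxy⟩ (a0 hx hx1) n h)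
    · exact nE' B2 x y fun h' => hxy h'.1
  have cE1' : Continuous fun p : ℝ × ℝ => (fun x y => sel F N B1 (x, y)) p.1 p.2 := cE1
  have cE2' : Continuous fun p : ℝ × ℝ => (fun x y => sel F N B2 (x, y)) p.1 p.2 := cE2
  have cH' : Continuous fun p : ℝ × ℝ => (fun x y => cut (F (x, y)) (N (x, y))) p.1 p.2 := cH
  have cF' : Continuous fun p : ℝ × ℝ => (fun x y => F (x, y)) p.1 p.2 := cF
  have t0 := SS_triv cH' hηp hη4 pH neH dH
  have top1 : ∀ x ∈ Icc (0:ℝ) 1, sel F N B1 (x, 1 - η) ≠ 0 := fun x hx =>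
    E1n x (1 - η) hx.1 hx.2 (by linarith [hx.1]) 1 (Or.inr (by
      rw [Int.cast_one, abs_le]; constructor <;> linarith))
  have left1 : ∀ y ∈ Icc (0:ℝ) (1 - η), sel F N B1 (0, y) ≠ 0 := fun y hy =>
    E1n 0 y le_rfl zero_le_one (by linarith [hy.2]) 0 (Or.inl (by simp [hηp.le]))
  have t1 := region1 cE1' cH' hηp hη4 neH g1 top1 left1
    (fun x hx => E1n x 1 (by linarith [hx.1]) hx.2 (by linarith [hx.1]) 1
      (Or.inr (by simp [hηp.le])))
  have bot2 : ∀ x ∈ Icc (0:ℝ) (1 - η), sel F N B2 (x, 1) ≠ 0 := fun x hx =>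
    E2n x 1 hx.1 (by linarith [hx.2]) (by linarith [hx.2]) 1 (Or.inr (by simp [hηp.le]))
  have right2 : ∀ y ∈ Icc (1:ℝ) 2, sel F N B2 (1 - η, y) ≠ 0 := fun y hy =>
    E2n (1 - η) y (by linarith) (by linarith) (by linarith [hy.1]) 1 (Or.inl (by
      rw [Int.cast_one, abs_le]; constructor <;> linarith))
  have t2 := region2 cE2' cH' hηp hη4 pE2 pH neH g2
    (fun y hy => E2n 0 y le_rfl zero_le_one (by linarith [hy.1]) 0 (Or.inl (by simp [hηp.le])))
    bot2 right2
    (fun y hy => E2n 1 y zero_le_one le_rfl (by linarith [hy.1]) 1 (Or.inl (by simp [hηp.le])))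
  have w2 : Wd (fun x y => sel F N B1 (x, y)) η 1 (1 - η) 1 = 0 :=
    Wd_zero cE1' (by linarith) (by linarith) fun x hx y hy =>
      E1n x y (by linarith [hx.1]) hx.2 (by linarith [hx.1, hy.2]) 1 (Or.inr (by
        rw [Int.cast_one, abs_le]; constructor <;> linarith [hy.1, hy.2]))
  have w4 : Wd (fun x y => sel F N B2 (x, y)) (1 - η) 1 (1 + η) 2 = 0 :=
    Wd_zero cE2' (by linarith) (by linarith) fun x hx y hy =>
      E2n x y (by linarith [hx.1]) hx.2 (by linarith [hx.2, hy.1]) 1 (Or.inl (by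
        rw [Int.cast_one, abs_le]; constructor <;> linarith [hx.1, hx.2]))
  -- the product
  have hprod : SS (fun x y => F (x, y) * cut (F (x, y)) (N (x, y))) η =
      SS (fun x y => sel F N B1 (x, y) * sel F N B2 (x, y)) η := by
    refine SS_congr hηp hη4 fun x y h => ?_
    obtain ⟨hU, -, -⟩ := Stc_UU hηp hη4 h
    obtain ⟨u1, u2⟩ := hU
    simp only at u1 u2
    unfold sel
    by_cases h1 : (x, y) ∈ B1
    · have h2 : (x, y) ∉ B2 := fun h2 => by linarith [h1.2, h2.2]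
      rw [if_pos h1, if_neg h2]
    · by_cases h2 : (x, y) ∈ B2
      · rw [if_neg h1, if_pos h2, mul_comm]
      · rw [if_neg h1, if_neg h2]
        have hs0 : sgk k x y = 0 := by
          by_contra hc
          rcases lt_or_gt_of_ne hc with g | g
          · exact h1 ⟨u1, g⟩
          · exact h2 ⟨u2, g⟩
        have hNp : 0 ≤ N (x, y) := by
          by_contra hc
          exact hsN x y (not_le.1 hc).le hs0
        rw [cut_of_le hNp]
  have neF : ∀ x y, Stc η (x, y) → F (x, y) ≠ 0 := fun x y h => mul_ne_zero hu (hne x y h)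
  rw [SS_mul hηp hη4 cF' cH' neF (fun x y _ => neH x y),
    SS_mul hηp hη4 cE1' cE2' (fun x y h => nE B1 x y (hne x y h))
      (fun x y h => nE B2 x y (hne x y h)), t0, add_zero] at hprod
  have hFG : SS (fun x y => F (x, y)) η = SS (GG q M) η := by
    have := SS_mul (G := fun _ _ => u) (H := GG q M) hηp hη4 (by fun_prop) hGc
      (fun _ _ _ => hu) hne
    rw [SS_const hηp hη4 hu, zero_add] at this
    exact this
  rw [hFG, t1, t2, t0, w2, w4] at hprod
  -- parities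
  have Bd1 : Bd (fun x y => sel F N B1 (x, y)) 0 1 0 (1 - η) := ⟨zero_le_one, by linarith,
    fun x hx => nE' B1 x 0 fun h' => by linarith [h'.1, hx.1], top1, left1,
    fun y hy => nE' B1 1 y fun h' => by
      have := h'.1
      simp only at this
      linarith [hy.2]⟩
  have Bd3 : Bd (fun x y => sel F N B2 (x, y)) 0 (1 - η) 1 2 := ⟨by linarith, by norm_num,
    bot2, fun x hx => nE' B2 x 2 fun h' => by
      have := h'.1
      simp only at this
      linarith [hx.2], fun y hy => nE' B2 0 y fun h' => by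
      have := h'.1
      simp only at this
      linarith [hy.1], right2⟩
  have P1 := par_sel hG S (fun p => rfl) hu oB1 cE1 hbig Bd1 (fun x hx y hy h' =>
    ⟨h'.1, by simp only; linarith [hx.1, hy.2]⟩) (fun x hx => a0 hx.1 hx.2)
  have P3 := par_sel hG S (fun p => rfl) hu oB2 cE2 hbig Bd3 (fun x hx y hy h' =>
    ⟨by simp only; linarith [hx.2, hy.1], h'.1⟩) (fun x hx => a0 hx.1 (by linarith [hx.2]))
  have hper0 : ∀ a b, SqP q a b → ‖q b - q a‖ < γ a b := by
    intro a b h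
    by_contra hc
    push Not at hc
    have := big a b hc
    rw [GG_ne] at this
    exact this ⟨(S.zero L).2 h.hD, (S.zero L).2 h.hC⟩
  have hc := count_total hG hn hkn hηp (B1 := B1) (B2 := B2) (fun _ => Iff.rfl)
    (fun _ => Iff.rfl) hmar'
  rw [fk_sum hG hke (fun a b h => (hper0 a b h).trans_le (γa a b))] at hc
  have PP : Pw (-Wd (fun x y => sel F N B1 (x, y)) 0 1 0 (1 - η) +
      Wd (fun x y => sel F N B2 (x, y)) 0 (1 - η) 1 2) 0 := by
    rw [← hc]; exact P1.neg.add P3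
  rw [show (0:ℂ) - (Wd (fun x y => sel F N B1 (x, y)) 0 1 0 (1 - η) + 0) +
      (0 + (Wd (fun x y => sel F N B2 (x, y)) 0 (1 - η) 1 2 + 0)) =
      -Wd (fun x y => sel F N B1 (x, y)) 0 1 0 (1 - η) +
      Wd (fun x y => sel F N B2 (x, y)) 0 (1 - η) 1 2 by ring] at hprod
  rw [hprod] at hodd
  have := hodd.unique PP
  exact absurd this (by decide)

end Pool.Agent.T2h51.LS
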