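import Pool.Agent.T2h51.LS.Core

/-! The parity argument for generic closed curves, with the crossings of a ray divided into two
classes. -/

set_option autoImplicit false
open Complex Set Topology Metric

namespace Pool.Agent.T2h51.LS
open Pool.Agent.H763R2 Pool.Agent.H763R2.An

variable {q : ℝ → ℂ} {M : ℂ → ℝ} {κ : ZMod 2}

theorem prod_cont {X : Type*} [TopologicalSpace X] {F : X → ℂ} {r χ : X → ℝ} {s : Set X} {p : X}
    (hF : ContinuousWithinAt F s p) (hr : ContinuousWithinAt r s p)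
    (hχ : ContinuousWithinAt χ s p)
    (h : F p ∈ slitPlane ∨ r p = 0 ∨ χ p = 0 ∨ (χ p = 1 ∧ F p ≠ 0)) :
    ContinuousWithinAt (fun x => (r x : ℂ) * exp (((F x).arg * χ x : ℝ) * I)) s p := by
  have small : ∀ g : X → ℝ, ContinuousWithinAt g s p → g p = 0 →
      ContinuousWithinAt (fun x => exp (((F x).arg * g x : ℝ) * I)) s p := by
    intro g hg hg0
    have h1 : ContinuousWithinAt (fun x => (F x).arg * g x) s p := by
      show Filter.Tendsto _ _ (𝓝 ((F p).arg * g p))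
      rw [hg0, mul_zero]
      refine squeeze_zero_norm (a := fun x => Real.pi * ‖g x‖) (fun x => ?_) ?_
      · rw [norm_mul]
        exact mul_le_mul_of_nonneg_right (by rw [Real.norm_eq_abs]; exact abs_arg_le_pi _)
          (norm_nonneg _)
      · have h2 : Filter.Tendsto g (𝓝[s] p) (𝓝 0) := by rw [← hg0]; exact hg
        have := (h2.norm).const_mul Real.pi
        simpa using this
    exact (continuous_exp.comp (by fun_prop : Continuous fun t : ℝ => (t : ℂ) * I)).continuousAt.comp_continuousWithinAt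
      (f := fun x => (F x).arg * g x) h1
  have hr' : ContinuousWithinAt (fun x => (r x : ℂ)) s p :=
    continuous_ofReal.continuousAt.comp_continuousWithinAt hr
  rcases h with h | h | h | ⟨h, h0⟩
  · refine hr'.mul ?_
    have h1 : ContinuousWithinAt (fun x => (F x).arg) s p :=
      (continuousAt_arg h).comp_continuousWithinAt hF
    exact (continuous_exp.comp (by fun_prop : Continuous fun t : ℝ => (t : ℂ) * I)).continuousAt.comp_continuousWithinAt
      (f := fun x => (F x).arg * χ x) (h1.mul hχ)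
  · show Filter.Tendsto _ _ (𝓝 ((r p : ℂ) * exp (((F p).arg * χ p : ℝ) * I)))
    rw [h, ofReal_zero, zero_mul]
    refine squeeze_zero_norm (a := fun x => ‖r x‖) (fun x => ?_) ?_
    · rw [norm_mul, norm_exp_ofReal_mul_I, mul_one, norm_real]
    · have h2 : Filter.Tendsto r (𝓝[s] p) (𝓝 0) := by rw [← h]; exact hr
      simpa using h2.norm
  · exact hr'.mul (small χ hχ h)
  · refine hr'.mul ?_
    have h1 := small (fun x => χ x - 1) (hχ.sub continuousWithinAt_const) (by simp [h])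
    have h2 : ContinuousWithinAt (fun x => F x / (‖F x‖ : ℂ)) s p :=
      hF.div (continuous_ofReal.continuousAt.comp_continuousWithinAt hF.norm) (by
        simpa using h0)
    refine (h2.mul h1).congr_of_eventuallyEq ?_ ?_
    · filter_upwards [hF.eventually (isOpen_compl_singleton.mem_nhds h0)] with x hx
      have hx : F x ≠ 0 := hx
      have hx' : (‖F x‖ : ℂ) ≠ 0 := by simpa using hx
      have e : F x / (‖F x‖ : ℂ) = exp ((F x).arg * I) := by
        rw [div_eq_iff hx', mul_comm, norm_mul_exp_arg_mul_I]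
      simp only [Pi.mul_apply]
      rw [e, ← exp_add]
      congr 1
      push_cast
      ring
    · have hx' : (‖F p‖ : ℂ) ≠ 0 := by simpa using h0
      have e : F p / (‖F p‖ : ℂ) = exp ((F p).arg * I) := by
        rw [div_eq_iff hx', mul_comm, norm_mul_exp_arg_mul_I]
      simp only [Pi.mul_apply]
      rw [e, ← exp_add]
      congr 1
      push_cast
      ring

/-- the closed strip -/
def Ss : Set (ℝ × ℝ) := {p | p.1 ≤ p.2 ∧ p.2 ≤ p.1 + 1}

/-- the retraction onto the closed strip -/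
noncomputable def Rs (p : ℝ × ℝ) : ℝ × ℝ := (p.1, max p.1 (min p.2 (p.1 + 1)))

theorem Rs_cont : Continuous Rs := by unfold Rs; fun_prop

theorem Rs_mem (p : ℝ × ℝ) : Rs p ∈ Ss :=
  ⟨le_max_left _ _, max_le (by simp only [Rs]; linarith) (min_le_right _ _)⟩

theorem Rs_id {x y : ℝ} (h : (x, y) ∈ Ss) : Rs (x, y) = (x, y) := by
  obtain ⟨h1, h2⟩ := h
  simp only at h1 h2
  simp only [Rs]
  rw [min_eq_left h2, max_eq_right h1]

theorem Rs_shift (x y : ℝ) : Rs (x + 1, y + 1) = ((Rs (x, y)).1 + 1, (Rs (x, y)).2 + 1) := by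
  simp only [Rs]
  rw [min_add_add_right, max_add_add_right]

/-- the first and the second part of `F` -/
noncomputable def D1 (F : ℝ × ℝ → ℂ) (N s χ : ℝ × ℝ → ℝ) (p : ℝ × ℝ) : ℂ :=
  ((‖F p‖ + (if s p ≤ 0 then 0 else max (-N p) 0) : ℝ) : ℂ) * exp (((F p).arg * χ p : ℝ) * I)

/-- the reference function -/
noncomputable def Hh (F : ℝ × ℝ → ℂ) (N : ℝ × ℝ → ℝ) (p : ℝ × ℝ) : ℂ :=
  ((‖F p‖ + max (-N p) 0 : ℝ) : ℂ)

section

variable {F : ℝ × ℝ → ℂ} {N s χ : ℝ × ℝ → ℝ}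

theorem D1_cont (hF : Continuous F) (hN : Continuous N) (hs : Continuous s) (hχ : Continuous χ)
    (hsN : ∀ p, N p ≤ 0 → s p ≠ 0) (hbig : ∀ p ∈ Ss, 0 ≤ N p → F p ≠ 0)
    (χr : ∀ p ∈ Ss, 0 ≤ N p → F p ∉ slitPlane → χ p = 0 ∨ χ p = 1)
    (χ0 : ∀ p ∈ Ss, N p ≤ 0 → 0 < s p → χ p = 0) (χ1 : ∀ p ∈ Ss, N p ≤ 0 → s p < 0 → χ p = 1) :
    Continuous fun p => D1 F N s χ (Rs p) := by
  have hm : Continuous fun p => (if s p ≤ 0 then 0 else max (-N p) 0 : ℝ) := by
    refine Continuous.if_le continuous_const (hN.neg.max continuous_const) hs continuous_const ?_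
    intro p hp
    have : ¬ N p ≤ 0 := fun h => hsN p h hp
    push Not at this
    rw [max_eq_right (by linarith)]
  have key : ContinuousOn (D1 F N s χ) Ss := by
    intro p hp
    refine prod_cont hF.continuousWithinAt (hF.norm.add hm).continuousWithinAt
      hχ.continuousWithinAt ?_
    by_cases hsl : F p ∈ slitPlane
    · exact Or.inl hsl
    right
    rcases le_or_gt 0 (N p) with hn | hn
    · rcases χr p hp hn hsl with h | h
      · exact Or.inr (Or.inl h)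
      · exact Or.inr (Or.inr ⟨h, hbig p hp hn⟩)
    · rcases lt_or_gt_of_ne (hsN p hn.le) with h | h
      · by_cases hF0 : F p = 0
        · left
          rw [if_pos h.le, hF0, norm_zero, add_zero]
        · exact Or.inr (Or.inr ⟨χ1 p hp hn.le h, hF0⟩)
      · exact Or.inr (Or.inl (χ0 p hp hn.le h))
  exact key.comp_continuous Rs_cont Rs_mem

theorem D1_F {p : ℝ × ℝ} (hs : s p < 0) (hχ : χ p = 1) : D1 F N s χ p = F p := by
  unfold D1
  rw [if_pos hs.le, add_zero, hχ, mul_one, norm_mul_exp_arg_mul_I]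

theorem D1_H {p : ℝ × ℝ} (hs : 0 < s p) (hχ : χ p = 0) : D1 F N s χ p = Hh F N p := by
  unfold D1 Hh
  rw [if_neg (not_le.2 hs), hχ, mul_zero, ofReal_zero, zero_mul, exp_zero, mul_one]

theorem D1_ne {p : ℝ × ℝ} (hbig : 0 ≤ N p → F p ≠ 0) (h : ¬ (s p ≤ 0 ∧ N p < 0 ∧ F p = 0)) :
    D1 F N s χ p ≠ 0 := by
  unfold D1
  refine mul_ne_zero ?_ (exp_ne_zero _)
  rw [Ne, ofReal_eq_zero]
  have h0 := norm_nonneg (F p)
  by_cases hF : F p = 0
  · have hn : N p < 0 := by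
      by_contra hc
      exact hbig (not_lt.1 hc) hF
    have hs : ¬ s p ≤ 0 := fun hs => h ⟨hs, hn, hF⟩
    rw [if_neg hs, max_eq_left (by linarith)]
    linarith
  · have := norm_pos_iff.2 hF
    split_ifs
    · linarith
    · have := le_max_right (-N p) 0
      linarith

theorem Hh_pos {p : ℝ × ℝ} (hbig : 0 ≤ N p → F p ≠ 0) : 0 < ‖F p‖ + max (-N p) 0 := by
  have h0 := norm_nonneg (F p)
  rcases le_or_gt 0 (N p) with hn | hn
  · have := norm_pos_iff.2 (hbig hn)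
    have := le_max_right (-N p) 0
    linarith
  · have := le_max_left (-N p) 0
    linarith

theorem D_prod {p : ℝ × ℝ} (hsN : N p ≤ 0 → s p ≠ 0) :
    D1 F N s χ p * D1 F N (fun p => - s p) (fun p => 1 - χ p) p = F p * Hh F N p := by
  unfold D1 Hh
  have e : exp (((F p).arg * χ p : ℝ) * I) * exp (((F p).arg * (1 - χ p) : ℝ) * I) =
      exp ((F p).arg * I) := by
    rw [← exp_add]; congr 1; push_cast; ring
  have e2 := norm_mul_exp_arg_mul_I (F p)
  have e3 : (‖F p‖ + (if s p ≤ 0 then 0 else max (-N p) 0)) *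
      (‖F p‖ + (if -s p ≤ 0 then 0 else max (-N p) 0)) = ‖F p‖ * (‖F p‖ + max (-N p) 0) := by
    rcases lt_trichotomy (s p) 0 with h | h | h
    · rw [if_pos h.le, if_neg (by linarith), add_zero]
    · rw [if_pos h.le, if_pos (by linarith)]
      have : 0 < N p := by
        by_contra hc
        exact hsN (not_lt.1 hc) h
      rw [max_eq_right (by linarith)]
      ring
    · rw [if_neg (by linarith), if_pos (by linarith)]; ring
  calc _ = (((‖F p‖ + (if s p ≤ 0 then 0 else max (-N p) 0)) *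
      (‖F p‖ + (if -s p ≤ 0 then 0 else max (-N p) 0)) : ℝ) : ℂ) *
      (exp (((F p).arg * χ p : ℝ) * I) * exp (((F p).arg * (1 - χ p) : ℝ) * I)) := by
        push_cast; ring
    _ = _ := by
        rw [e, e3]
        push_cast
        linear_combination ((‖F p‖ : ℂ) + ((max (-N p) 0 : ℝ) : ℂ)) * e2

end

open Classical in
theorem par_gen (hG : Gen q) (S : Sg q M κ) {u : ℂ} {F E : ℝ × ℝ → ℂ}
    (hF : ∀ p : ℝ × ℝ, F p = u * GG q M p.1 p.2) (hu : u ≠ 0) {B : Set (ℝ × ℝ)}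
    (hB : IsOpen B) (hc : Continuous E) (hEB : ∀ p ∈ B, E p = F p)
    {a b c d : ℝ} (ne : ∀ x ∈ Icc a b, ∀ y ∈ Icc c d, (x, y) ∉ B → E (x, y) ≠ 0)
    (hbd : Bd (fun x y => E (x, y)) a b c d) (hU : ∀ p ∈ B, p ∈ UU)
    (h3 : ∀ x ∈ Icc a b, |x| ≤ 3) :
    Pw (Wd (fun x y => E (x, y)) a b c d)
      (∑ z ∈ (hG.fin 3).toFinset.filter (fun z => z ∈ B ∧ InR a b c d z), io q z) := by
  have L := hG.L
  have hc' : Continuous fun p : ℝ × ℝ => (fun x y => E (x, y)) p.1 p.2 := hc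
  have := Wd_sum hc' ((hG.fin 3).toFinset.filter (fun z => z ∈ B)) (io q) (fun z hz => by
    rw [Finset.mem_filter, Set.Finite.mem_toFinset] at hz
    obtain ⟨⟨hz, -⟩, hzB⟩ := hz
    obtain ⟨r, hr, hg⟩ := germ_io hG S hz
    obtain ⟨ε, hε, hb⟩ := Metric.isOpen_iff.1 hB z hzB
    refine ⟨min r (ε / 2), by positivity, fun s hs t ht => ?_⟩
    have hs1 : |s| ≤ min r (ε / 2) := abs_le.2 hs
    have ht1 : |t| ≤ min r (ε / 2) := abs_le.2 ht
    have hs2 := hs1.trans (min_le_left _ _)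
    have ht2 := ht1.trans (min_le_left _ _)
    have hs3 := hs1.trans (min_le_right _ _)
    have ht3 := ht1.trans (min_le_right _ _)
    have m1 : (z.1 + s, z.2 + t) ∈ B := hb (by
      rw [mem_ball, Prod.dist_eq, Real.dist_eq, Real.dist_eq]
      simp only [add_sub_cancel_left]
      exact max_lt (by linarith) (by linarith))
    have m2 : (z.1 - s, z.2 - t) ∈ B := hb (by
      rw [mem_ball, Prod.dist_eq, Real.dist_eq, Real.dist_eq]
      simp only [sub_sub_cancel_left, abs_neg]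
      exact max_lt (by linarith) (by linarith))
    rw [hEB _ m1, hEB _ m2, hF, hF]
    simp only
    rw [hg s (abs_le.1 hs2) t (abs_le.1 ht2)]
    ring) _ a b c d hbd (fun x hx y hy h0 => by
      rw [Finset.mem_filter, Set.Finite.mem_toFinset]
      have hm : (x, y) ∈ B := by
        by_contra hn
        exact ne x hx y hy hn h0
      have hF0 : F (x, y) = 0 := by rw [← hEB _ hm]; exact h0
      rw [hF] at hF0
      have h00 := (mul_eq_zero.1 hF0).resolve_left hu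
      exact ⟨⟨(Zq_iff L S (hU _ hm)).1 h00, h3 x hx⟩, hm⟩) rfl
  rw [Finset.filter_filter] at this
  exact this

open Classical in
theorem sum_B (Z : Finset (ℝ × ℝ)) (B B' : Set (ℝ × ℝ)) (Q : ℝ × ℝ → Prop)
    (ι : ℝ × ℝ → ZMod 2) (h : ∀ z ∈ Z, z ∈ B ↔ z ∈ B') :
    ∑ z ∈ Z.filter (fun z => z ∈ B ∧ Q z), ι z = ∑ z ∈ Z.filter (fun z => z ∈ B' ∧ Q z), ι z := by
  congr 1
  exact Finset.filter_congr fun z hz => and_congr_left fun _ => h z hz

theorem SS_pos {H : ℝ → ℝ → ℝ} {η : ℝ} (h0 : 0 < η) (h1 : η < 1 / 2)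
    (hH : Continuous fun p : ℝ × ℝ => H p.1 p.2) (pH : ∀ x y, H (x + 1) (y + 1) = H x y)
    (hpos : ∀ x y, 0 < H x y) : SS (fun x y => (H x y : ℂ)) η = 0 := by
  have cK : Continuous fun p : ℝ × ℝ => Real.log (H p.1 p.2) := hH.log fun p => (hpos _ _).ne'
  have e1 := SS_eq (G := fun x y => (H x y : ℂ)) h0 h1
    (K := fun s => ((Real.log (H (sx η s) (sy η s)) : ℝ) : ℂ))
    (continuous_ofReal.comp (cK.comp ((sx_cont η).prodMk (sy_cont η)))) (fun x y h => by
      rw [(st_inv h0 h1 h).1, (st_inv h0 h1 h).2, ← ofReal_exp, Real.exp_log (hpos x y)])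
  have m1 : Stc η (0, η) := Or.inl ⟨rfl, le_rfl, by simp only; linarith⟩
  have m2 : Stc η (1, 1 + η) := by
    refine Or.inr (Or.inr (Or.inr (Or.inr (Or.inr ⟨rfl, ?_, le_rfl⟩))))
    simp only; linarith
  have b1 := st_inv h0 h1 m1
  have b2 := st_inv h0 h1 m2
  rw [zero_add] at b1
  rw [show (1:ℝ) + (1 + η) = 2 + η by ring] at b2
  rw [b1.1, b1.2, b2.1, b2.2] at e1
  rw [e1]
  have := pH 0 η
  rw [zero_add, show η + 1 = 1 + η by ring] at this
  rw [this, sub_self]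

/-- chords with a short parameter distance are short -/
theorem q_unif (L : Loop q) {γ : ℝ → ℝ → ℝ} {δ : ℝ} (hδ : 0 < δ) (hγ : ∀ x y, δ ≤ γ x y) :
    ∃ η > 0, ∀ x y : ℝ, |x - y| ≤ η → ‖q y - q x‖ < γ x y := by
  obtain ⟨N0, hN0, hN⟩ := L.fine hδ
  have hN0' : (0:ℝ) < N0 := by exact_mod_cast hN0
  refine ⟨1 / N0, by positivity, fun x y h => ?_⟩
  have := hN N0 le_rfl y x (by rw [abs_sub_comm]; exact h)
  exact this.trans_le (hγ x y)

/-- the contradiction for generic closed curves, with two classes of crossings -/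
theorem gen_core2 (hG : Gen q) (S : Sg q M κ) (h0 : ∀ y, (0, y) ∉ Zq q) {e : ℂ} {η1 : ℝ}
    (he : e ≠ 0) (hη1 : 0 < η1) (hl : Lin q 0 e η1)
    {O : ℂ} {k : ℝ → ℂ} (hk : Continuous k) (hke : ∀ t, exp (k t) = q t - O) {n : ℤ} (hn : Odd n)
    (hkn : ∀ t, k (t + 1) = k t + n * (2 * Real.pi * I))
    {γ : ℝ → ℝ → ℝ} (hγ : Continuous fun p : ℝ × ℝ => γ p.1 p.2)
    (γ1 : ∀ x y, γ (x + 1) y = γ x y) (γ2 : ∀ x y, γ x (y + 1) = γ x y)
    {δ : ℝ} (hδ : 0 < δ) (γ0 : ∀ x y, δ ≤ γ x y)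
    (γa : ∀ x y, γ x y ≤ √2 * ‖q x - O‖) (γb : ∀ x y, γ x y ≤ √2 * ‖q y - O‖)
    {u : ℂ} (hu : u ≠ 0) (big : ∀ x y, γ x y ≤ ‖q y - q x‖ → GG q M x y ≠ 0)
    {χ : ℝ × ℝ → ℝ} (hχ : Continuous χ) (χp : ∀ x y, χ (x + 1, y + 1) = χ (x, y))
    (χr : ∀ x y, x ≤ y → y ≤ x + 1 → γ x y ≤ ‖q y - q x‖ → u * GG q M x y ∉ slitPlane →
      χ (x, y) = 0 ∨ χ (x, y) = 1)
    (χ0 : ∀ x y, x ≤ y → y ≤ x + 1 → ‖q y - q x‖ ≤ γ x y → 0 < sgk k x y → χ (x, y) = 0)
    (χ1 : ∀ x y, x ≤ y → y ≤ x + 1 → ‖q y - q x‖ ≤ γ x y → sgk k x y < 0 → χ (x, y) = 1) :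
    False := by
  classical
  have L := hG.L
  have J : Inj0 q := fun t h1 h2 h => h0 t (dbl_mem h1 (by linarith) h.symm)
  have hGc := GG_cont L S.cont
  have nz : ∀ x y, (x, y) ∈ UU → (x, y) ∉ Zq q → GG q M x y ≠ 0 := fun x y hU hz h =>
    hz ((Zq_iff L S hU).1 h)
  have hz : NZ0 q M := by
    intro y h1 h2
    have u1 : ((0, y) : ℝ × ℝ) ∈ UU := ⟨h1, by simp only; linarith⟩
    have u2 : ((y, 1) : ℝ × ℝ) ∈ UU := ⟨h2, by simp only; linarith⟩
    refine ⟨GG_ne.1 (nz _ _ u1 (h0 y)), GG_ne.1 (nz _ _ u2 fun h => ?_)⟩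
    have := (nint L h0 h 1).2
    simp at this
  obtain ⟨ε, Fl⟩ := flat_base L J he hη1 hl
  obtain ⟨m0, hm0⟩ := loc_of_flat L J S rfl Fl
  obtain ⟨η0, hη0, hmar⟩ := margin hG h0
  obtain ⟨ηk, hηk, hun⟩ := k_unif hk hkn
  obtain ⟨ηq, hηq, huq⟩ := q_unif L hδ γ0
  obtain ⟨j, hj⟩ := exists_nat_one_div_lt
    (show 0 < min η0 (min (min (ηk / 2) (ηq / 2)) (1 / 2)) by positivity)
  set m := m0 + (j + 1) with hm
  have hmk : (1 : ℝ) / m ≤ 1 / (j + 1) := by
    apply one_div_le_one_div_of_le (by positivity)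
    rw [hm]; push_cast
    have : (0:ℝ) ≤ m0 := Nat.cast_nonneg m0
    linarith
  have hm1 := hmk.trans_lt hj
  have hml := hm0 m (by omega)
  set η : ℝ := 1 / m with hη
  have hηp : 0 < η := by
    rw [hη]; apply one_div_pos.2
    have : 0 < m := by omega
    exact_mod_cast this
  have hη2 : η < η0 := hm1.trans_le (min_le_left _ _)
  have hη3 : η < ηk / 2 := hm1.trans_le ((min_le_right _ _).trans ((min_le_left _ _).trans
    (min_le_left _ _)))
  have hη5 : η < ηq / 2 := hm1.trans_le ((min_le_right _ _).trans ((min_le_left _ _).trans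
    (min_le_right _ _)))
  have hη4 : η < 1 / 2 := hm1.trans_le ((min_le_right _ _).trans (min_le_right _ _))
  have hmar' : ∀ x y, (x, y) ∈ Zq q → |x| ≤ 3 → ∀ n : ℤ, η < |x - n| ∧ η < |y - n| :=
    fun x y h hx n => ⟨hη2.trans (hmar x y h hx n).1, hη2.trans (hmar x y h hx n).2⟩
  have nzm : ∀ x y, (x, y) ∈ UU → |x| ≤ 3 → ∀ n : ℤ, (|x - n| ≤ η ∨ |y - n| ≤ η) →
      GG q M x y ≠ 0 := by
    intro x y hU hx n h
    refine nz x y hU fun hz => ?_
    obtain ⟨a1, a2⟩ := hmar' x y hz hx n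
    rcases h with h | h <;> linarith
  have hne : ∀ x y, Stc η (x, y) → GG q M x y ≠ 0 := by
    intro x y h
    obtain ⟨hU, hx, n, hn⟩ := Stc_UU hηp hη4 h
    exact nzm x y hU hx n hn
  have hodd : Pw (SS (GG q M) η) 1 := by
    rcases hml with Λ | Λ
    · exact SS_odd L S hz Λ hne
    · have hz' : NZ0 q (fun z => - M z) := by
        intro y h1 h2
        have := hz y h1 h2
        simpa using this
      have := SS_odd L (S.neg L) hz' Λ (fun x y h => by
        rw [GG_neg]; exact neg_ne_zero.2 (hne x y h))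
      have e1 : GG q (fun z => - M z) = fun x y => - GG q M x y := by
        funext x y; exact GG_neg x y
      rw [e1, SS_neg hηp hη4 hGc hne] at this
      exact this
  -- the maps
  set F : ℝ × ℝ → ℂ := fun p => u * GG q M p.1 p.2 with hF
  set N : ℝ × ℝ → ℝ := fun p => ‖q p.2 - q p.1‖ - γ p.1 p.2 with hN
  set s : ℝ × ℝ → ℝ := fun p => sgk k p.1 p.2 with hs
  have cq := L.cont
  have cF : Continuous F := by rw [hF]; exact continuous_const.mul hGc
  have cN : Continuous N := by rw [hN]; fun_prop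
  have cs : Continuous s := sgk_cont hk
  have hbig : ∀ p, 0 ≤ N p → F p ≠ 0 := fun p hp => mul_ne_zero hu (big p.1 p.2 (by
    rw [hN] at hp; simp only at hp; linarith))
  have hsN : ∀ p, N p ≤ 0 → s p ≠ 0 := fun p h => sgk_ne hke (by
    rw [hN] at h; simp only at h; linarith : ‖q p.2 - q p.1‖ ≤ γ p.1 p.2) (γa p.1 p.2) (γb p.1 p.2)
  have χr' : ∀ p ∈ Ss, 0 ≤ N p → F p ∉ slitPlane → χ p = 0 ∨ χ p = 1 := fun p hp h1 h2 =>
    χr p.1 p.2 hp.1 hp.2 (by rw [hN] at h1; simp only at h1; linarith) h2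
  have χ0' : ∀ p ∈ Ss, N p ≤ 0 → 0 < s p → χ p = 0 := fun p hp h1 h2 =>
    χ0 p.1 p.2 hp.1 hp.2 (by rw [hN] at h1; simp only at h1; linarith) h2
  have χ1' : ∀ p ∈ Ss, N p ≤ 0 → s p < 0 → χ p = 1 := fun p hp h1 h2 =>
    χ1 p.1 p.2 hp.1 hp.2 (by rw [hN] at h1; simp only at h1; linarith) h2
  have cE1 : Continuous fun p => D1 F N s χ (Rs p) :=
    D1_cont cF cN cs hχ hsN (fun p _ => hbig p) χr' χ0' χ1'
  have cE2 : Continuous fun p => D1 F N (fun p => - s p) (fun p => 1 - χ p) (Rs p) :=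
    D1_cont cF cN cs.neg (continuous_const.sub hχ) (fun p h => neg_ne_zero.2 (hsN p h))
      (fun p _ => hbig p) (fun p hp h1 h2 => by
        rcases χr' p hp h1 h2 with h | h
        · right; show 1 - χ p = 1; rw [h]; norm_num
        · left; show 1 - χ p = 0; rw [h]; norm_num) (fun p hp h1 h2 => by
        have h2 : 0 < - s p := h2
        show 1 - χ p = 0
        rw [χ1' p hp h1 (by linarith)]; norm_num) (fun p hp h1 h2 => by
        have h2 : - s p < 0 := h2
        show 1 - χ p = 1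
        rw [χ0' p hp h1 (by linarith)]; norm_num)
  set E1 : ℝ → ℝ → ℂ := fun x y => D1 F N s χ (Rs (x, y)) with hE1
  set E2 : ℝ → ℝ → ℂ := fun x y => D1 F N (fun p => - s p) (fun p => 1 - χ p) (Rs (x, y)) with hE2
  set HR : ℝ → ℝ → ℝ := fun x y => ‖F (Rs (x, y))‖ + max (-N (Rs (x, y))) 0 with hHR
  set H : ℝ → ℝ → ℂ := fun x y => (HR x y : ℂ) with hH
  have HRpos : ∀ x y, 0 < HR x y := fun x y => Hh_pos (hbig _)
  have cHR : Continuous fun p : ℝ × ℝ => HR p.1 p.2 := by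
    have h1 := cF.comp Rs_cont
    have h2 := cN.comp Rs_cont
    exact h1.norm.add (h2.neg.max continuous_const)
  have cH : Continuous fun p : ℝ × ℝ => H p.1 p.2 := continuous_ofReal.comp cHR
  have neH : ∀ x y, H x y ≠ 0 := fun x y => by
    show ((HR x y : ℝ) : ℂ) ≠ 0
    exact_mod_cast (HRpos x y).ne'
  have cE1' : Continuous fun p : ℝ × ℝ => E1 p.1 p.2 := cE1
  have cE2' : Continuous fun p : ℝ × ℝ => E2 p.1 p.2 := cE2
  have cF' : Continuous fun p : ℝ × ℝ => (fun x y => F (x, y)) p.1 p.2 := cF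
  have pF : ∀ x y, F (x + 1, y + 1) = F (x, y) := fun x y => by
    rw [hF]; simp only; rw [GG_per L]
  have pN : ∀ x y, N (x + 1, y + 1) = N (x, y) := fun x y => by
    rw [hN]; simp only; rw [L.per, L.per, γ1, γ2]
  have ps : ∀ x y, s (x + 1, y + 1) = s (x, y) := fun x y => sgk_per hkn x y
  have pHR : ∀ x y, HR (x + 1) (y + 1) = HR x y := fun x y => by
    rw [hHR]; simp only; rw [Rs_shift, pF, pN]
  have pH : ∀ x y, H (x + 1) (y + 1) = H x y := fun x y => by
    rw [hH]; simp only; rw [pHR]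
  have pE2 : ∀ x y, E2 (x + 1) (y + 1) = E2 x y := fun x y => by
    rw [hE2]; simp only; rw [Rs_shift]; unfold D1
    simp only [pF, pN, ps, χp, Prod.mk.eta]
  -- near the two ends
  have nd : ∀ x y, x ≤ y → y ≤ x + 2 * η → N (x, y) < 0 ∧ 0 < s (x, y) := by
    intro x y h1 h2
    constructor
    · have := huq x y (by rw [abs_sub_comm, abs_of_nonneg (by linarith)]; linarith)
      rw [hN]; simp only; linarith
    · exact sgk_near (hun y x (by rw [abs_of_nonneg (by linarith)]; linarith))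
  have ne' : ∀ x y, y ≤ x + 1 → x + 1 - 2 * η ≤ y → N (x, y) < 0 ∧ s (x, y) < 0 := by
    intro x y h1 h2
    constructor
    · have h3 := huq (x + 1) y (by rw [abs_of_nonneg (by linarith)]; linarith)
      rw [L.per, γ1] at h3
      rw [hN]; simp only; linarith
    · have h3 := sgk_near (hun y (x + 1) (by
        rw [abs_sub_comm, abs_of_nonneg (by linarith)]; linarith))
      have h4 := sgk_y hn hkn (x + 1) y
      rw [sgk_per hkn] at h4
      show sgk k x y < 0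
      linarith
  have g1 : ∀ x y, y ≤ x + 2 * η → E1 x y = H x y := by
    intro x y h
    have hR := Rs_mem (x, y)
    have hR2 : (Rs (x, y)).2 ≤ (Rs (x, y)).1 + 2 * η := by
      simp only [Rs]
      exact max_le (by linarith) ((min_le_left _ _).trans h)
    obtain ⟨h1, h2⟩ := nd _ _ hR.1 hR2
    exact D1_H h2 (χ0' _ hR h1.le h2)
  have g2 : ∀ x y, x + 1 - 2 * η ≤ y → E2 x y = H x y := by
    intro x y h
    have hR := Rs_mem (x, y)
    have hR2 : (Rs (x, y)).1 + 1 - 2 * η ≤ (Rs (x, y)).2 := by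
      simp only [Rs]
      exact (le_min h (by linarith)).trans (le_max_right _ _)
    obtain ⟨h1, h2⟩ := ne' _ _ hR.2 hR2
    refine D1_H (s := fun p => - s p) (χ := fun p => 1 - χ p) (neg_pos.2 h2) ?_
    have := χ1' _ hR h1.le h2
    show 1 - χ (Rs (x, y)) = 0
    have e : χ ((Rs (x, y)).1, (Rs (x, y)).2) = χ (Rs (x, y)) := rfl
    rw [← e, this]; norm_num
  -- the selected sets
  set B1 : Set (ℝ × ℝ) := {p | p ∈ UU ∧ s p < 0 ∧ N p < 0} with hB1
  set B2 : Set (ℝ × ℝ) := {p | p ∈ UU ∧ 0 < s p ∧ N p < 0} with hB2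
  have oB1 : IsOpen B1 := UU_open.inter ((isOpen_lt cs continuous_const).inter
    (isOpen_lt cN continuous_const))
  have oB2 : IsOpen B2 := UU_open.inter ((isOpen_lt continuous_const cs).inter
    (isOpen_lt cN continuous_const))
  have memS : ∀ {p : ℝ × ℝ}, p ∈ UU → p ∈ Ss := fun h => ⟨le_of_lt h.1, le_of_lt h.2⟩
  have e1B : ∀ p ∈ B1, (fun p => D1 F N s χ (Rs p)) p = F p := by
    rintro ⟨x, y⟩ ⟨hU, h1, h2⟩
    simp only
    rw [Rs_id (memS hU)]
    exact D1_F h1 (χ1' _ (memS hU) h2.le h1)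
  have e2B : ∀ p ∈ B2, (fun p => D1 F N (fun p => - s p) (fun p => 1 - χ p) (Rs p)) p = F p := by
    rintro ⟨x, y⟩ ⟨hU, h1, h2⟩
    simp only
    rw [Rs_id (memS hU)]
    refine D1_F (s := fun p => - s p) (χ := fun p => 1 - χ p) (neg_neg_of_pos h1) ?_
    show 1 - χ (x, y) = 1
    rw [χ0' _ (memS hU) h2.le h1]; norm_num
  have a0 : ∀ {x : ℝ}, 0 ≤ x → x ≤ 1 → |x| ≤ 3 := fun h1 h2 => by
    rw [abs_le]; constructor <;> linarith
  -- nonvanishing
  have E1z : ∀ x y : ℝ, y < x + 1 → (x, y) ∉ B1 → E1 x y ≠ 0 := by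
    intro x y hy hB
    by_cases hxy : y ≤ x + 2 * η
    · rw [g1 x y hxy]; exact neH x y
    push Not at hxy
    have hU : (x, y) ∈ UU := ⟨by simp only; linarith, hy⟩
    rw [hE1]
    simp only
    rw [Rs_id (memS hU)]
    refine D1_ne (hbig _) ?_
    rintro ⟨h1, h2, -⟩
    exact hB ⟨hU, lt_of_le_of_ne h1 (hsN _ h2.le), h2⟩
  have E2z : ∀ x y : ℝ, x < y → (x, y) ∉ B2 → E2 x y ≠ 0 := by
    intro x y hy hB
    by_cases hxy : x + 1 - 2 * η ≤ y
    · rw [g2 x y hxy]; exact neH x y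
    push Not at hxy
    have hU : (x, y) ∈ UU := ⟨hy, by simp only; linarith⟩
    rw [hE2]
    simp only
    rw [Rs_id (memS hU)]
    refine D1_ne (hbig _) ?_
    rintro ⟨h1, h2, -⟩
    have h1 : - s (x, y) ≤ 0 := h1
    exact hB ⟨hU, lt_of_le_of_ne (by linarith) (hsN _ h2.le).symm, h2⟩
  have E1n : ∀ x y : ℝ, 0 ≤ x → x ≤ 1 → y < x + 1 → ∀ n : ℤ, (|x - n| ≤ η ∨ |y - n| ≤ η) →
      E1 x y ≠ 0 := by
    intro x y hx hx1 hy n h
    by_cases hB : (x, y) ∈ B1
    · have := e1B _ hB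
      simp only at this
      rw [hE1]
      simp only
      rw [this]
      exact mul_ne_zero hu (nzm x y hB.1 (a0 hx hx1) n h)
    · exact E1z x y hy hB
  have E2n : ∀ x y : ℝ, 0 ≤ x → x ≤ 1 → x < y → ∀ n : ℤ, (|x - n| ≤ η ∨ |y - n| ≤ η) →
      E2 x y ≠ 0 := by
    intro x y hx hx1 hy n h
    by_cases hB : (x, y) ∈ B2
    · have := e2B _ hB
      simp only at this
      rw [hE2]
      simp only
      rw [this]
      exact mul_ne_zero hu (nzm x y hB.1 (a0 hx hx1) n h)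
    · exact E2z x y hy hB
  have t0 : SS H η = 0 := SS_pos hηp hη4 cHR pHR HRpos
  have top1 : ∀ x ∈ Icc (0:ℝ) 1, E1 x (1 - η) ≠ 0 := fun x hx =>
    E1n x (1 - η) hx.1 hx.2 (by linarith [hx.1]) 1 (Or.inr (by
      rw [Int.cast_one, abs_le]; constructor <;> linarith))
  have left1 : ∀ y ∈ Icc (0:ℝ) (1 - η), E1 0 y ≠ 0 := fun y hy =>
    E1n 0 y le_rfl zero_le_one (by linarith [hy.2]) 0 (Or.inl (by simp [hηp.le]))
  have t1 := region1 cE1' cH hηp hη4 neH g1 top1 left1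
    (fun x hx => E1n x 1 (by linarith [hx.1]) hx.2 (by linarith [hx.1]) 1
      (Or.inr (by simp [hηp.le])))
  have bot2 : ∀ x ∈ Icc (0:ℝ) (1 - η), E2 x 1 ≠ 0 := fun x hx =>
    E2n x 1 hx.1 (by linarith [hx.2]) (by linarith [hx.2]) 1 (Or.inr (by simp [hηp.le]))
  have right2 : ∀ y ∈ Icc (1:ℝ) 2, E2 (1 - η) y ≠ 0 := fun y hy =>
    E2n (1 - η) y (by linarith) (by linarith) (by linarith [hy.1]) 1 (Or.inl (by
      rw [Int.cast_one, abs_le]; constructor <;> linarith))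
  have t2 := region2 cE2' cH hηp hη4 pE2 pH neH g2
    (fun y hy => E2n 0 y le_rfl zero_le_one (by linarith [hy.1]) 0 (Or.inl (by simp [hηp.le])))
    bot2 right2
    (fun y hy => E2n 1 y zero_le_one le_rfl (by linarith [hy.1]) 1 (Or.inl (by simp [hηp.le])))
  have w2 : Wd E1 η 1 (1 - η) 1 = 0 :=
    Wd_zero cE1' (by linarith) (by linarith) fun x hx y hy =>
      E1n x y (by linarith [hx.1]) hx.2 (by linarith [hx.1, hy.2]) 1 (Or.inr (by
        rw [Int.cast_one, abs_le]; constructor <;> linarith [hy.1, hy.2]))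
  have w4 : Wd E2 (1 - η) 1 (1 + η) 2 = 0 :=
    Wd_zero cE2' (by linarith) (by linarith) fun x hx y hy =>
      E2n x y (by linarith [hx.1]) hx.2 (by linarith [hx.2, hy.1]) 1 (Or.inl (by
        rw [Int.cast_one, abs_le]; constructor <;> linarith [hx.1, hx.2]))
  -- the product
  have hprod : SS (fun x y => F (x, y) * H x y) η = SS (fun x y => E1 x y * E2 x y) η := by
    refine SS_congr hηp hη4 fun x y h => ?_
    obtain ⟨hU, -, -⟩ := Stc_UU hηp hη4 h
    rw [hE1, hE2, hH, hHR]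
    simp only
    rw [Rs_id (memS hU)]
    exact (D_prod (hsN _)).symm
  have neF : ∀ x y, Stc η (x, y) → F (x, y) ≠ 0 := fun x y h => mul_ne_zero hu (hne x y h)
  have neE1 : ∀ x y, Stc η (x, y) → E1 x y ≠ 0 := by
    intro x y h
    obtain ⟨hU, -, -⟩ := Stc_UU hηp hη4 h
    by_cases hB : (x, y) ∈ B1
    · have := e1B _ hB
      simp only at this
      rw [hE1]
      simp only
      rw [this]
      exact neF x y h
    · exact E1z x y hU.2 hB
  have neE2 : ∀ x y, Stc η (x, y) → E2 x y ≠ 0 := by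
    intro x y h
    obtain ⟨hU, -, -⟩ := Stc_UU hηp hη4 h
    by_cases hB : (x, y) ∈ B2
    · have := e2B _ hB
      simp only at this
      rw [hE2]
      simp only
      rw [this]
      exact neF x y h
    · exact E2z x y hU.1 hB
  rw [SS_mul hηp hη4 cF' cH neF (fun x y _ => neH x y),
    SS_mul hηp hη4 cE1' cE2' neE1 neE2, t0, add_zero] at hprod
  have hFG : SS (fun x y => F (x, y)) η = SS (GG q M) η := by
    have := SS_mul (G := fun _ _ => u) (H := GG q M) hηp hη4 (by fun_prop) hGc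
      (fun _ _ _ => hu) hne
    rw [SS_const hηp hη4 hu, zero_add] at this
    exact this
  rw [hFG, t1, t2, t0, w2, w4] at hprod
  -- parities
  have Bd1 : Bd E1 0 1 0 (1 - η) := ⟨zero_le_one, by linarith,
    fun x hx => E1z x 0 (by linarith [hx.1]) fun h' => by
      have := h'.1.1
      simp only at this
      linarith [hx.1], top1, left1,
    fun y hy => E1z 1 y (by linarith [hy.2]) fun h' => by
      have := h'.1.1
      simp only at this
      linarith [hy.2]⟩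
  have Bd3 : Bd E2 0 (1 - η) 1 2 := ⟨by linarith, by norm_num,
    bot2, fun x hx => E2z x 2 (by linarith [hx.2]) fun h' => by
      have := h'.1.2
      simp only at this
      linarith [hx.2], fun y hy => E2z 0 y (by linarith [hy.1]) fun h' => by
      have := h'.1.2
      simp only at this
      linarith [hy.1], right2⟩
  have P1 := par_gen hG S (E := fun p => D1 F N s χ (Rs p)) (fun p => rfl) hu oB1 cE1 e1B
    (fun x hx y hy hB => E1z x y (by linarith [hx.1, hy.2]) hB) Bd1 (fun p hp => hp.1)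
    (fun x hx => a0 hx.1 hx.2)
  have P3 := par_gen hG S (E := fun p => D1 F N (fun p => - s p) (fun p => 1 - χ p) (Rs p))
    (fun p => rfl) hu oB2 cE2 e2B
    (fun x hx y hy hB => E2z x y (by linarith [hx.2, hy.1]) hB) Bd3 (fun p hp => hp.1)
    (fun x hx => a0 hx.1 (by linarith [hx.2]))
  have hper0 : ∀ a b, SqP q a b → ‖q b - q a‖ < γ a b := by
    intro a b h
    by_contra hc
    push Not at hc
    have := big a b hc
    rw [GG_ne] at this
    exact this ⟨(S.zero L).2 h.hD, (S.zero L).2 h.hC⟩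
  obtain ⟨B1', hB1'⟩ : ∃ B : Set (ℝ × ℝ), ∀ p : ℝ × ℝ, p ∈ B ↔ p.1 < p.2 ∧ sgk k p.1 p.2 < 0 :=
    ⟨{p | p.1 < p.2 ∧ sgk k p.1 p.2 < 0}, fun _ => Iff.rfl⟩
  obtain ⟨B2', hB2'⟩ : ∃ B : Set (ℝ × ℝ), ∀ p : ℝ × ℝ, p ∈ B ↔ p.2 < p.1 + 1 ∧
      0 < sgk k p.1 p.2 := ⟨{p | p.2 < p.1 + 1 ∧ 0 < sgk k p.1 p.2}, fun _ => Iff.rfl⟩
  have hc := count_total hG hn hkn hηp hB1' hB2' hmar'
  rw [fk_sum hG hke (fun a b h => (hper0 a b h).trans_le (γa a b))] at hc
  have hZN : ∀ z ∈ Zq q, N z < 0 := by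
    rintro ⟨x, y⟩ hz
    by_contra hcon
    push Not at hcon
    have h1 := hbig _ hcon
    rw [hF] at h1
    simp only at h1
    rw [(Zq_iff L S hz.1).2 hz, mul_zero] at h1
    exact h1 rfl
  have s1 := sum_B (hG.fin 3).toFinset B1 B1' (InR 0 1 0 (1 - η)) (io q) (fun z hz => by
    rw [Set.Finite.mem_toFinset] at hz
    rw [hB1']
    exact ⟨fun h => ⟨h.1.1, h.2.1⟩, fun h => ⟨hz.1.1, h.2, hZN z hz.1⟩⟩)
  have s3 := sum_B (hG.fin 3).toFinset B2 B2' (InR 0 (1 - η) 1 2) (io q) (fun z hz => by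
    rw [Set.Finite.mem_toFinset] at hz
    rw [hB2']
    exact ⟨fun h => ⟨h.1.2, h.2.1⟩, fun h => ⟨hz.1.1, h.2, hZN z hz.1⟩⟩)
  rw [s1] at P1
  rw [s3] at P3
  have PP : Pw (-Wd E1 0 1 0 (1 - η) + Wd E2 0 (1 - η) 1 2) 0 := by
    rw [← hc]; exact P1.neg.add P3
  rw [show (0:ℂ) - (Wd E1 0 1 0 (1 - η) + 0) + (0 + (Wd E2 0 (1 - η) 1 2 + 0)) =
      -Wd E1 0 1 0 (1 - η) + Wd E2 0 (1 - η) 1 2 by ring] at hprod
  rw [hprod] at hodd
  have := hodd.unique PP
  exact absurd this (by decide)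

end Pool.Agent.T2h51.LS
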