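import Pool.Agent.H763R2.An.Fn

/-! Cut-off maps and windings along staircases. -/

set_option autoImplicit false
open Complex Set Topology Metric

namespace Pool.Agent.T2h51.LS
open Pool.Agent.H763R2 Pool.Agent.H763R2.An

theorem dl_congr' {f f' : ℝ → ℂ} {a b : ℝ} (hab : a ≤ b) (h : ∀ t ∈ Icc a b, f t = f' t) :
    dl f a b = dl f' a b := by
  by_cases hK : ∃ K : ℝ → ℂ, Continuous K ∧ ∀ t ∈ Icc a b, exp (K t) = f t
  · obtain ⟨K, h1, h2⟩ := hK
    rw [dl_eq hab h1.continuousOn h2, dl_eq hab h1.continuousOn fun t ht => by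
      rw [h2 t ht, h t ht]]
  · have hK' : ¬ ∃ K : ℝ → ℂ, Continuous K ∧ ∀ t ∈ Icc a b, exp (K t) = f' t := by
      rintro ⟨K, h1, h2⟩
      exact hK ⟨K, h1, fun t ht => by rw [h2 t ht, h t ht]⟩
    unfold dl
    rw [dif_neg hK, dif_neg hK']

/-- logarithm of a product along an interval -/
theorem dl_mul {f g : ℝ → ℂ} {a b : ℝ} (hab : a ≤ b) (hf : Continuous f) (hg : Continuous g)
    (h0 : ∀ t ∈ Icc a b, f t ≠ 0) (h1 : ∀ t ∈ Icc a b, g t ≠ 0) :
    dl (fun t => f t * g t) a b = dl f a b + dl g a b := by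
  obtain ⟨K, hK, hKe⟩ := ex_log hab hf h0
  obtain ⟨K', hK', hKe'⟩ := ex_log hab hg h1
  rw [dl_eq hab hK.continuousOn hKe, dl_eq hab hK'.continuousOn hKe',
    dl_eq (K := fun t => K t + K' t) hab (hK.add hK').continuousOn (fun t ht => by
      rw [exp_add, hKe t ht, hKe' t ht])]
  ring

variable {G H : ℝ → ℝ → ℂ} {η : ℝ}

theorem SS_mul (h0 : 0 < η) (h1 : η < 1 / 2) (hG : Continuous fun p : ℝ × ℝ => G p.1 p.2)
    (hH : Continuous fun p : ℝ × ℝ => H p.1 p.2) (nG : ∀ x y, Stc η (x, y) → G x y ≠ 0)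
    (nH : ∀ x y, Stc η (x, y) → H x y ≠ 0) :
    SS (fun x y => G x y * H x y) η = SS G η + SS H η := by
  unfold SS
  rw [dl_mul (by linarith) (Gy hG _) (Gy hH _) (fun t ht => nG _ _ (Or.inl ⟨rfl, ht⟩))
      (fun t ht => nH _ _ (Or.inl ⟨rfl, ht⟩)),
    dl_mul (by linarith) (Gx hG _) (Gx hH _) (fun t ht => nG _ _ (Or.inr (Or.inl ⟨rfl, ht⟩)))
      (fun t ht => nH _ _ (Or.inr (Or.inl ⟨rfl, ht⟩))),
    dl_mul (by linarith) (Gy hG _) (Gy hH _)
      (fun t ht => nG _ _ (Or.inr (Or.inr (Or.inl ⟨rfl, ht⟩))))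
      (fun t ht => nH _ _ (Or.inr (Or.inr (Or.inl ⟨rfl, ht⟩)))),
    dl_mul (by linarith) (Gx hG _) (Gx hH _)
      (fun t ht => nG _ _ (Or.inr (Or.inr (Or.inr (Or.inl ⟨rfl, ht⟩)))))
      (fun t ht => nH _ _ (Or.inr (Or.inr (Or.inr (Or.inl ⟨rfl, ht⟩))))),
    dl_mul (by linarith) (Gy hG _) (Gy hH _)
      (fun t ht => nG _ _ (Or.inr (Or.inr (Or.inr (Or.inr (Or.inl ⟨rfl, ht⟩))))))
      (fun t ht => nH _ _ (Or.inr (Or.inr (Or.inr (Or.inr (Or.inl ⟨rfl, ht⟩)))))),
    dl_mul (by linarith) (Gx hG _) (Gx hH _)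
      (fun t ht => nG _ _ (Or.inr (Or.inr (Or.inr (Or.inr (Or.inr ⟨rfl, ht⟩))))))
      (fun t ht => nH _ _ (Or.inr (Or.inr (Or.inr (Or.inr (Or.inr ⟨rfl, ht⟩))))))]
  ring

theorem SS_congr (h0 : 0 < η) (h1 : η < 1 / 2) (h : ∀ x y, Stc η (x, y) → G x y = H x y) : SS G η = SS H η := by
  unfold SS
  rw [dl_congr' (f := fun y => G 0 y) (by linarith) (fun t ht => h _ _ (Or.inl ⟨rfl, ht⟩)),
    dl_congr' (f := fun x => G x (1 - η)) (by linarith) (fun t ht => h _ _ (Or.inr (Or.inl ⟨rfl, ht⟩))),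
    dl_congr' (f := fun y => G η y) (by linarith) (fun t ht => h _ _ (Or.inr (Or.inr (Or.inl ⟨rfl, ht⟩)))),
    dl_congr' (f := fun x => G x 1) (by linarith)
      (fun t ht => h _ _ (Or.inr (Or.inr (Or.inr (Or.inl ⟨rfl, ht⟩))))),
    dl_congr' (f := fun y => G (1 - η) y) (by linarith)
      (fun t ht => h _ _ (Or.inr (Or.inr (Or.inr (Or.inr (Or.inl ⟨rfl, ht⟩)))))),
    dl_congr' (f := fun x => G x (1 + η)) (by linarith)
      (fun t ht => h _ _ (Or.inr (Or.inr (Or.inr (Or.inr (Or.inr ⟨rfl, ht⟩))))))]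

theorem region1 (hG : Continuous fun p : ℝ × ℝ => G p.1 p.2)
    (hH : Continuous fun p : ℝ × ℝ => H p.1 p.2) (h0 : 0 < η) (h1 : η < 1 / 2)
    (hne : ∀ x y, H x y ≠ 0) (hag : ∀ x y, y ≤ x + 2 * η → G x y = H x y)
    (n1 : ∀ x ∈ Icc (0:ℝ) 1, G x (1 - η) ≠ 0) (n2 : ∀ y ∈ Icc 0 (1 - η), G 0 y ≠ 0)
    (n3 : ∀ x ∈ Icc η 1, G x 1 ≠ 0) :
    SS G η = SS H η - (Wd G 0 1 0 (1 - η) + Wd G η 1 (1 - η) 1) := by
  have w1 : Wd H 0 1 0 (1 - η) = 0 := Wd_zero hH zero_le_one (by linarith) fun _ _ _ _ => hne _ _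
  have w2 : Wd H η 1 (1 - η) 1 = 0 := Wd_zero hH (by linarith) (by linarith) fun _ _ _ _ => hne _ _
  have a1 : dl (fun x => G x 0) 0 1 = dl (fun x => H x 0) 0 1 :=
    dl_congr' (by linarith) fun t ht => hag _ _ (by linarith [ht.1])
  have a2 : dl (fun y => G 1 y) 0 (1 - η) = dl (fun y => H 1 y) 0 (1 - η) :=
    dl_congr' (by linarith) fun t ht => hag _ _ (by linarith [ht.2])
  have a3 : dl (fun y => G 1 y) (1 - η) 1 = dl (fun y => H 1 y) (1 - η) 1 :=
    dl_congr' (by linarith) fun t ht => hag _ _ (by linarith [ht.2])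
  have a4 : dl (fun y => G 0 y) 0 η = dl (fun y => H 0 y) 0 η :=
    dl_congr' (by linarith) fun t ht => hag _ _ (by linarith [ht.2])
  have a5 : dl (fun x => G x 1) (1 - η) 1 = dl (fun x => H x 1) (1 - η) 1 :=
    dl_congr' (by linarith) fun t ht => hag _ _ (by linarith [ht.1])
  have a6 : dl (fun y => G (1 - η) y) 1 (1 + η) = dl (fun y => H (1 - η) y) 1 (1 + η) :=
    dl_congr' (by linarith) fun t ht => hag _ _ (by linarith [ht.2])
  have a7 : dl (fun x => G x (1 + η)) (1 - η) 1 = dl (fun x => H x (1 + η)) (1 - η) 1 :=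
    dl_congr' (by linarith) fun t ht => hag _ _ (by linarith [ht.1])
  have s1 := dl_add (f := fun x => G x (1 - η)) (a := 0) (b := η) (c := 1) h0.le (by linarith)
    (Gx hG _) n1
  have s2 := dl_add (f := fun y => G 0 y) (a := 0) (b := η) (c := 1 - η) h0.le (by linarith)
    (Gy hG _) n2
  have s3 := dl_add (f := fun x => G x 1) (a := η) (b := 1 - η) (c := 1) (by linarith)
    (by linarith) (Gx hG _) n3
  have t1 := dl_add (f := fun x => H x (1 - η)) (a := 0) (b := η) (c := 1) h0.le (by linarith)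
    (Gx hH _) (fun _ _ => hne _ _)
  have t2 := dl_add (f := fun y => H 0 y) (a := 0) (b := η) (c := 1 - η) h0.le (by linarith)
    (Gy hH _) (fun _ _ => hne _ _)
  have t3 := dl_add (f := fun x => H x 1) (a := η) (b := 1 - η) (c := 1) (by linarith)
    (by linarith) (Gx hH _) (fun _ _ => hne _ _)
  unfold Wd at w1 w2 ⊢
  unfold SS
  linear_combination a1 + a2 + a3 - a4 - a5 + a6 + a7 - s1 - s2 - s3 + t1 + t2 + t3 + w1 + w2

theorem region2 (hG : Continuous fun p : ℝ × ℝ => G p.1 p.2)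
    (hH : Continuous fun p : ℝ × ℝ => H p.1 p.2) (h0 : 0 < η) (h1 : η < 1 / 2)
    (pG : ∀ x y, G (x + 1) (y + 1) = G x y) (pH : ∀ x y, H (x + 1) (y + 1) = H x y)
    (hne : ∀ x y, H x y ≠ 0) (hag : ∀ x y, x + 1 - 2 * η ≤ y → G x y = H x y)
    (n0 : ∀ y ∈ Icc η (1 - η), G 0 y ≠ 0)
    (n1 : ∀ x ∈ Icc (0:ℝ) (1 - η), G x 1 ≠ 0) (n2 : ∀ y ∈ Icc (1:ℝ) 2, G (1 - η) y ≠ 0)
    (n3 : ∀ y ∈ Icc (1 + η) 2, G 1 y ≠ 0) :
    SS G η = SS H η + (Wd G 0 (1 - η) 1 2 + Wd G (1 - η) 1 (1 + η) 2) := by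
  have w1 : Wd H 0 (1 - η) 1 2 = 0 :=
    Wd_zero hH (by linarith) (by norm_num) fun _ _ _ _ => hne _ _
  have w2 : Wd H (1 - η) 1 (1 + η) 2 = 0 :=
    Wd_zero hH (by linarith) (by linarith) fun _ _ _ _ => hne _ _
  have a1 : dl (fun x => G x 1) 0 η = dl (fun x => H x 1) 0 η :=
    dl_congr' (by linarith) fun t ht => hag _ _ (by linarith [ht.2])
  have a2 : dl (fun y => G 1 y) (2 - η) 2 = dl (fun y => H 1 y) (2 - η) 2 :=
    dl_congr' (by linarith) fun t ht => hag _ _ (by linarith [ht.1])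
  have a3 : dl (fun x => G x (1 - η)) 0 η = dl (fun x => H x (1 - η)) 0 η :=
    dl_congr' (by linarith) fun t ht => hag _ _ (by linarith [ht.2])
  have a4 : dl (fun y => G η y) (1 - η) 1 = dl (fun y => H η y) (1 - η) 1 :=
    dl_congr' (by linarith) fun t ht => hag _ _ (by linarith [ht.1])
  have a5 : dl (fun x => G x 2) 0 (1 - η) = dl (fun x => H x 2) 0 (1 - η) :=
    dl_congr' (by linarith) fun t ht => hag _ _ (by linarith [ht.2])
  have a6 : dl (fun x => G x 2) (1 - η) 1 = dl (fun x => H x 2) (1 - η) 1 :=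
    dl_congr' (by linarith) fun t ht => hag _ _ (by linarith [ht.2])
  have a7 : dl (fun y => G 0 y) 1 2 = dl (fun y => H 0 y) 1 2 :=
    dl_congr' (by linarith) fun t ht => hag _ _ (by linarith [ht.1])
  have s1 := dl_add (f := fun x => G x 1) (a := 0) (b := η) (c := 1 - η) h0.le (by linarith)
    (Gx hG _) n1
  have s2 := dl_add (f := fun y => G (1 - η) y) (a := 1) (b := 1 + η) (c := 2) (by linarith)
    (by linarith) (Gy hG _) n2
  have s3 := dl_add (f := fun y => G 1 y) (a := 1 + η) (b := 2 - η) (c := 2) (by linarith)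
    (by linarith) (Gy hG _) n3
  have t1 := dl_add (f := fun x => H x 1) (a := 0) (b := η) (c := 1 - η) h0.le (by linarith)
    (Gx hH _) (fun _ _ => hne _ _)
  have t2 := dl_add (f := fun y => H (1 - η) y) (a := 1) (b := 1 + η) (c := 2) (by linarith)
    (by linarith) (Gy hH _) (fun _ _ => hne _ _)
  have t3 := dl_add (f := fun y => H 1 y) (a := 1 + η) (b := 2 - η) (c := 2) (by linarith)
    (by linarith) (Gy hH _) (fun _ _ => hne _ _)
  have u1 := dl_shift (f := fun y => G 0 y) (f' := fun y => G 1 y) (a := η) (b := 1 - η) (s := 1)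
    (by linarith) (Gy hG _) n0 (fun t _ => by
      have := pG 0 t
      rw [zero_add] at this
      exact this.symm)
  have u2 := dl_shift (f := fun y => H 0 y) (f' := fun y => H 1 y) (a := η) (b := 1 - η) (s := 1)
    (by linarith) (Gy hH _) (fun _ _ => hne _ _) (fun t _ => by
      have := pH 0 t
      rw [zero_add] at this
      exact this.symm)
  rw [show η + 1 = 1 + η by ring, show 1 - η + 1 = 2 - η by ring] at u1 u2
  unfold Wd at w1 w2 ⊢
  unfold SS
  linear_combination -a1 - a2 + a3 + a4 + a5 + a6 + a7 - s1 - s2 - s3 + t1 + t2 + t3 - w1 - w2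
    + u1 - u2

/-- a nonvanishing periodic map without change along the diagonal -/
theorem SS_triv (hH : Continuous fun p : ℝ × ℝ => H p.1 p.2) (h0 : 0 < η) (h1 : η < 1 / 2)
    (pH : ∀ x y, H (x + 1) (y + 1) = H x y) (hne : ∀ x y, H x y ≠ 0) (hd : ∀ x, H x x = 1) :
    SS H η = 0 := by
  obtain ⟨K, hK, hKe⟩ := H777R2.exists_log (X := ℝ × ℝ) (g := fun p => H p.1 p.2) hH
    (fun p => hne _ _)
  have e1 := SS_eq (G := H) h0 h1 (K := fun s => K (sx η s, sy η s))
    (hK.comp ((sx_cont η).prodMk (sy_cont η))) (fun x y h => by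
      rw [(st_inv h0 h1 h).1, (st_inv h0 h1 h).2]
      exact hKe (x, y))
  have m1 : Stc η (0, η) := Or.inl ⟨rfl, le_rfl, by simp only; linarith⟩
  have m2 : Stc η (1, 1 + η) := by
    refine Or.inr (Or.inr (Or.inr (Or.inr (Or.inr ⟨rfl, ?_, le_rfl⟩))))
    simp only; linarith
  have b1 := st_inv h0 h1 m1
  have b2 := st_inv h0 h1 m2
  rw [zero_add] at b1
  rw [show (1:ℝ) + (1 + η) = 2 + η by ring] at b2
  rw [b1.1, b1.2, b2.1, b2.2] at e1
  rw [e1]
  have c1 := H777R2.exp_const (X := ℝ × ℝ) (k := fun p => K (p.1 + 1, p.2 + 1) - K p)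
    ((hK.comp (by fun_prop)).sub hK) (c := 1) (fun p => by
      rw [exp_sub, hKe, hKe]
      simp only
      rw [pH]
      exact div_self (hne _ _)) (0, η) (0, 0)
  simp only [zero_add] at c1
  rw [show η + 1 = 1 + η by ring] at c1
  rw [c1]
  have c2 := H777R2.exp_const (X := ℝ) (k := fun t => K (t, t)) (by fun_prop) (c := 1)
    (fun t => by rw [hKe]; exact hd t) 1 0
  rw [c2, sub_self]

/-- distance to the negative real axis, roughly -/
noncomputable def tw (w : ℂ) : ℝ := |w.im| + max w.re 0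

theorem tw_nn (w : ℂ) : 0 ≤ tw w := add_nonneg (abs_nonneg _) (le_max_right _ _)

theorem tw_pos {w : ℂ} : 0 < tw w ↔ w ∈ slitPlane := by
  unfold tw
  constructor
  · intro h
    by_contra hn
    rw [mem_slitPlane_iff] at hn
    push Not at hn
    rw [hn.2, abs_zero, zero_add, max_eq_right hn.1] at h
    exact lt_irrefl _ h
  · intro h
    rcases mem_slitPlane_iff.1 h with h | h
    · exact add_pos_of_nonneg_of_pos (abs_nonneg _) (lt_max_of_lt_left h)
    · exact add_pos_of_pos_of_nonneg (abs_pos.2 h) (le_max_right _ _)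

theorem tw_cont : Continuous tw := by unfold tw; fun_prop

/-- cut-off weight -/
noncomputable def ch (w : ℂ) (n : ℝ) : ℝ := if 0 ≤ n then 1 else tw w / (tw w - n)

/-- cut-off -/
noncomputable def cut (w : ℂ) (n : ℝ) : ℂ := ch w n * w + (1 - ch w n)

theorem cut_of_le {w : ℂ} {n : ℝ} (h : 0 ≤ n) : cut w n = w := by
  unfold cut ch; rw [if_pos h]; simp

theorem cut_zero {n : ℝ} (h : n < 0) : cut 0 n = 1 := by
  unfold cut ch tw; rw [if_neg (not_le.2 h)]; simp

theorem cut_ne {w : ℂ} {n : ℝ} (h : 0 ≤ n → w ≠ 0) : cut w n ≠ 0 := by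
  rcases le_or_gt 0 n with h' | h'
  · rw [cut_of_le h']; exact h h'
  intro h0
  unfold cut ch at h0
  rw [if_neg (not_le.2 h')] at h0
  have hnn := tw_nn w
  rcases hnn.lt_or_eq with ht | ht
  · set k := tw w / (tw w - n) with hk
    have hk0 : 0 < k := by apply div_pos ht; linarith
    have hk1 : k ≤ 1 := by rw [hk, div_le_one (by linarith)]; linarith
    have hs := tw_pos.1 ht
    have h2 := congrArg Complex.re h0
    have h3 := congrArg Complex.im h0
    simp at h2 h3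
    have hw : w.im = 0 := by
      rcases h3 with h | h
      · exact absurd h hk0.ne'
      · exact h
    rcases mem_slitPlane_iff.1 hs with h | h
    · nlinarith
    · exact h hw
  · rw [← ht] at h0
    simp at h0

theorem ch_cont {F : ℝ × ℝ → ℂ} {N : ℝ × ℝ → ℝ} (hF : Continuous F) (hN : Continuous N)
    (h : ∀ p, N p = 0 → F p ∈ slitPlane) : Continuous fun p => ch (F p) (N p) := by
  unfold ch
  refine continuous_if_le continuous_const hN continuousOn_const ?_ ?_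
  · have ht := tw_cont.comp hF
    refine ht.continuousOn.div (ht.sub hN).continuousOn fun p hp => ?_
    have h1 := tw_nn (F p)
    have hp' : N p ≤ 0 := hp
    rcases hp'.lt_or_eq with h2 | h2
    · intro h3; linarith
    · have := tw_pos.2 (h p h2)
      intro h3; linarith
  · intro p hp
    have := tw_pos.2 (h p hp.symm)
    rw [← hp, sub_zero, div_self this.ne']

theorem cut_cont {F : ℝ × ℝ → ℂ} {N : ℝ × ℝ → ℝ} (hF : Continuous F) (hN : Continuous N)
    (h : ∀ p, N p = 0 → F p ∈ slitPlane) : Continuous fun p => cut (F p) (N p) := by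
  have := ch_cont hF hN h
  unfold cut
  fun_prop

open Classical in
/-- selection: `F` on a set, the cut-off elsewhere -/
noncomputable def sel (F : ℝ × ℝ → ℂ) (N : ℝ × ℝ → ℝ) (B : Set (ℝ × ℝ)) (p : ℝ × ℝ) : ℂ :=
  if p ∈ B then F p else cut (F p) (N p)

theorem sel_cont {F : ℝ × ℝ → ℂ} {N : ℝ × ℝ → ℝ} {B : Set (ℝ × ℝ)} (hF : Continuous F)
    (hN : Continuous N) (h : ∀ p, N p = 0 → F p ∈ slitPlane) (hB : IsOpen B)
    (hB' : ∀ p, N p ≤ 0 → p ∉ B → ∀ᶠ q in 𝓝 p, q ∉ B) : Continuous (sel F N B) := by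
  classical
  rw [continuous_iff_continuousAt]
  intro p
  have hc := cut_cont hF hN h
  by_cases hp : p ∈ B
  · refine hF.continuousAt.congr ?_
    filter_upwards [hB.mem_nhds hp] with q hq
    unfold sel; rw [if_pos hq]
  rcases le_or_gt (N p) 0 with hn | hn
  · refine hc.continuousAt.congr ?_
    filter_upwards [hB' p hn hp] with q hq
    unfold sel; rw [if_neg hq]
  · refine hF.continuousAt.congr ?_
    filter_upwards [hN.continuousAt.eventually (lt_mem_nhds hn)] with q hq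
    unfold sel
    split_ifs
    · rfl
    · exact (cut_of_le hq.le).symm

end Pool.Agent.T2h51.LS
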