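import Pool.Agent.T2h51.LS.Core
import Pool.Agent.H763R2.An.Pr

/-! Large inscribed squares in Jordan curves: passage from generic curves to all Jordan curves. -/

set_option autoImplicit false
open Complex Set Topology Metric

namespace Pool.Agent.T2h51.LS
open Pool.Agent.H763R2 Pool.Agent.H763R2.An

variable {c q : ℝ → ℂ}

theorem per_lower {f : ℝ → ℝ → ℝ} (hf : Continuous fun p : ℝ × ℝ => f p.1 p.2)
    (h1 : ∀ x y, f (x + 1) y = f x y) (h2 : ∀ x y, f x (y + 1) = f x y) (h0 : ∀ x y, 0 < f x y) :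
    ∃ δ > 0, ∀ x y, δ ≤ f x y := by
  have hK : IsCompact (Icc (0:ℝ) 1 ×ˢ Icc (0:ℝ) 1) := isCompact_Icc.prod isCompact_Icc
  obtain ⟨p, -, hmin⟩ := hK.exists_isMinOn ⟨(0, 0), ⟨⟨le_rfl, zero_le_one⟩, ⟨le_rfl, zero_le_one⟩⟩⟩
    (f := fun p => f p.1 p.2) hf.continuousOn
  refine ⟨f p.1 p.2, h0 _ _, fun x y => ?_⟩
  have e1 : ∀ (n : ℤ) x y, f (x + n) y = f x y := by
    intro n x y
    have : Function.Periodic (fun x => f x y) 1 := fun x => h1 x y
    have := this.int_mul n x
    simpa using this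
  have e2 : ∀ (n : ℤ) x y, f x (y + n) = f x y := by
    intro n x y
    have : Function.Periodic (fun y => f x y) 1 := fun y => h2 x y
    have := this.int_mul n y
    simpa using this
  have e : f (Int.fract x) (Int.fract y) = f x y := by
    rw [← e1 ⌊x⌋ (Int.fract x) (Int.fract y), Int.fract_add_floor, ← e2 ⌊y⌋ x (Int.fract y),
      Int.fract_add_floor]
  rw [← e]
  exact hmin (⟨⟨Int.fract_nonneg x, (Int.fract_lt_one x).le⟩,
    ⟨Int.fract_nonneg y, (Int.fract_lt_one y).le⟩⟩ :
      ((Int.fract x, Int.fract y) : ℝ × ℝ) ∈ Icc (0:ℝ) 1 ×ˢ Icc (0:ℝ) 1)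

theorem tw_lip (w w' : ℂ) : tw w ≤ tw w' + 2 * ‖w' - w‖ := by
  unfold tw
  have h1 : |w.im| - |w'.im| ≤ ‖w' - w‖ := (abs_sub_abs_le_abs_sub w.im w'.im).trans (by
    have := abs_im_le_norm (w' - w)
    rwa [sub_im, abs_sub_comm] at this)
  have h2 : max w.re 0 ≤ max w'.re 0 + ‖w' - w‖ := by
    have h3 := abs_re_le_norm (w' - w)
    rw [sub_re, abs_le] at h3
    refine max_le ?_ ?_
    · have := le_max_left w'.re 0
      linarith [h3.1]
    · have := le_max_right w'.re 0
      linarith [norm_nonneg (w' - w)]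
  linarith

theorem GG_py (L : Loop c) {M : ℂ → ℝ} (x y : ℝ) : GG c M x (y + 1) = GG c M x y := by
  unfold GG DD CC; rw [L.per]

theorem GG_px (L : Loop c) {M : ℂ → ℝ} (x y : ℝ) : GG c M (x + 1) y = GG c M x y := by
  unfold GG DD CC; rw [L.per]

/-- shifting the second parameter -/
theorem shift_y (L : Loop c) {x y : ℝ} (h : c x ≠ c y) :
    ∃ j : ℤ, x < y - j ∧ y - j < x + 1 := by
  refine ⟨⌊y - x⌋, ?_, ?_⟩
  · have h1 := Int.floor_le (y - x)
    rcases h1.lt_or_eq with h2 | h2
    · linarith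
    · exfalso
      apply h
      have := L.per_int x ⌊y - x⌋
      rw [← this, h2]
      congr 1
      ring
  · have := Int.lt_floor_add_one (y - x)
    linarith

theorem k_inc (L : Loop c) {O : ℂ} {n : ℤ} {k : ℝ → ℂ} (hk : Continuous k)
    (he : ∀ t, exp (k t) = c t - O) (hkn : k 1 - k 0 = n * (2 * Real.pi * I)) (t : ℝ) :
    k (t + 1) = k t + n * (2 * Real.pi * I) := by
  have := H777R2.exp_const (X := ℝ) (k := fun t => k (t + 1) - k t)
    ((hk.comp (by fun_prop)).sub hk) (c := 1) (fun t => by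
      rw [exp_sub, he, he, L.per]
      have : c t - O ≠ 0 := by rw [← he]; exact exp_ne_zero _
      exact div_self this) t 0
  simp only [zero_add] at this
  rw [hkn] at this
  linear_combination this

theorem main (L : Loop c) {O : ℂ} {n : ℤ} (hn : Odd n) {k : ℝ → ℂ}
    (hk : Continuous k) (he : ∀ t, exp (k t) = c t - O) (hkn : k 1 - k 0 = n * (2 * Real.pi * I))
    {γ : ℝ → ℝ → ℝ} (hγ : Continuous fun p : ℝ × ℝ => γ p.1 p.2)
    (γ1 : ∀ x y, γ (x + 1) y = γ x y) (γ2 : ∀ x y, γ x (y + 1) = γ x y) (γ0 : ∀ x y, 0 < γ x y)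
    (γa : ∀ x y, γ x y ≤ √2 * ‖c x - O‖) (γb : ∀ x y, γ x y ≤ √2 * ‖c y - O‖)
    {u : ℂ} (hu : u ≠ 0)
    (big : ∀ x y, x < y → y < x + 1 → γ x y ≤ ‖c y - c x‖ →
      ¬ (DD c x y ∈ range c ∧ CC c x y ∈ range c))
    (ray : ∀ x y, x < y → y < x + 1 → ‖c y - c x‖ = γ x y →
      u * GG c (mgc c) x y ∈ slitPlane) : False := by
  classical
  have S := mgc_sg L
  have hkp := k_inc L hk he hkn
  have cGG := GG_cont L S.cont
  have cc := L.cont
  have γj : ∀ (j : ℤ) x y, γ x (y - j) = γ x y := by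
    intro j x y
    have : Function.Periodic (fun y => γ x y) 1 := fun y => γ2 x y
    have := this.sub_int_mul_eq (x := y) (n := j)
    simpa using this
  have Gj : ∀ (j : ℤ) x y, GG c (mgc c) x (y - j) = GG c (mgc c) x y := by
    intro j x y
    have : Function.Periodic (fun y => GG c (mgc c) x y) 1 := fun y => GG_py L x y
    have := this.sub_int_mul_eq (x := y) (n := j)
    simpa using this
  have cj : ∀ (j : ℤ) y, c (y - j) = c y := by
    intro j y
    have := L.per_int (y - j) j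
    rw [sub_add_cancel] at this
    exact this.symm
  have ne_of : ∀ x y, γ x y ≤ ‖c y - c x‖ → c x ≠ c y := by
    intro x y h h'
    rw [h', sub_self, norm_zero] at h
    exact absurd (γ0 x y) (not_lt.2 h)
  have big' : ∀ x y, γ x y ≤ ‖c y - c x‖ → GG c (mgc c) x y ≠ 0 := by
    intro x y h
    obtain ⟨j, h1, h2⟩ := shift_y L (ne_of x y h)
    have := big x (y - j) h1 h2 (by rw [γj, cj]; exact h)
    rw [← Gj j, GG_ne, S.zero L, S.zero L]
    exact this
  have ray' : ∀ x y, ‖c y - c x‖ = γ x y → u * GG c (mgc c) x y ∈ slitPlane := by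
    intro x y h
    obtain ⟨j, h1, h2⟩ := shift_y L (ne_of x y h.ge)
    have := ray x (y - j) h1 h2 (by rw [γj, cj]; exact h)
    rwa [Gj] at this
  obtain ⟨δ1, hδ1, H1⟩ := per_lower
    (f := fun x y => max ‖GG c (mgc c) x y‖ (γ x y - ‖c y - c x‖))
    (by fun_prop) (fun x y => by rw [GG_px L, γ1, L.per])
    (fun x y => by rw [GG_py L, γ2, L.per]) (fun x y => by
      rcases le_or_gt (γ x y) ‖c y - c x‖ with h | h
      · exact lt_max_of_lt_left (norm_pos_iff.2 (big' x y h))
      · exact lt_max_of_lt_right (by linarith))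
  obtain ⟨δ2, hδ2, H2⟩ := per_lower
    (f := fun x y => max (tw (u * GG c (mgc c) x y)) |γ x y - ‖c y - c x‖|)
    (by have := tw_cont; fun_prop) (fun x y => by rw [GG_px L, γ1, L.per])
    (fun x y => by rw [GG_py L, γ2, L.per]) (fun x y => by
      by_cases h : ‖c y - c x‖ = γ x y
      · exact lt_max_of_lt_left (tw_pos.2 (ray' x y h))
      · exact lt_max_of_lt_right (abs_pos.2 (sub_ne_zero.2 (Ne.symm h))))
  obtain ⟨δ3, hδ3, H3⟩ := per_lower (f := γ) hγ γ1 γ2 γ0
  set δ := min δ1 (min δ2 δ3) with hδ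
  have hδp : 0 < δ := by positivity
  have d1 : δ ≤ δ1 := min_le_left _ _
  have d2 : δ ≤ δ2 := (min_le_right _ _).trans (min_le_left _ _)
  have d3 : δ ≤ δ3 := (min_le_right _ _).trans (min_le_right _ _)
  set ε := δ / (48 * (1 + ‖u‖)) with hε
  have hun := norm_nonneg u
  have hεp : 0 < ε := by positivity
  have hε1 : ε * (48 * (1 + ‖u‖)) = δ := by rw [hε]; field_simp
  have hε2 : 48 * ε ≤ δ := by nlinarith
  have hε3 : 48 * (‖u‖ * ε) ≤ δ := by nlinarith
  obtain ⟨q, hG, hcl⟩ := approx L hεp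
  -- the lifted logarithm
  have far : ∀ t, δ / 2 ≤ ‖c t - O‖ := by
    intro t
    have h1 := (H3 t t).trans (γa t t)
    have hs2 : √2 ≤ 2 := by
      rw [Real.sqrt_le_left (by norm_num)]; norm_num
    have hn0 := norm_nonneg (c t - O)
    nlinarith
  have hrat : ∀ t, (q t - O) / (c t - O) ∈ slitPlane := by
    intro t
    have h1 := far t
    have h0 : c t - O ≠ 0 := norm_pos_iff.1 (by linarith)
    left
    have e : (q t - O) / (c t - O) = 1 + (q t - c t) / (c t - O) := by
      field_simp; ring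
    have h4 : ‖(q t - c t) / (c t - O)‖ < 1 := by
      rw [norm_div, div_lt_one (norm_pos_iff.2 h0)]
      have := hcl t
      linarith
    rw [e, add_re, one_re]
    have := (abs_le.1 (abs_re_le_norm ((q t - c t) / (c t - O)))).1
    linarith
  have cq := hG.L.cont
  set kq : ℝ → ℂ := fun t => k t + log ((q t - O) / (c t - O)) with hkq
  have ckq : Continuous kq := by
    refine hk.add (Continuous.clog ?_ hrat)
    refine (cq.sub continuous_const).div (cc.sub continuous_const) fun t => ?_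
    rw [← he]; exact exp_ne_zero _
  have ekq : ∀ t, exp (kq t) = q t - O := by
    intro t
    have h0 : c t - O ≠ 0 := by rw [← he]; exact exp_ne_zero _
    rw [hkq]
    simp only
    rw [exp_add, he, exp_log (slitPlane_ne_zero (hrat t))]
    field_simp
  have pkq : ∀ t, kq (t + 1) = kq t + n * (2 * Real.pi * I) := by
    intro t
    rw [hkq]
    simp only
    rw [hkp, hG.L.per, L.per]; ring
  have hnq : ∀ x y, |‖q y - q x‖ - ‖c y - c x‖| ≤ 2 * ε := by
    intro x y
    have h1 := abs_norm_sub_norm_le (q y - q x) (c y - c x)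
    have e : q y - q x - (c y - c x) = (q y - c y) - (q x - c x) := by ring
    rw [e] at h1
    have h2 := norm_sub_le (q y - c y) (q x - c x)
    have := hcl x
    have := hcl y
    linarith
  have bigq : ∀ x y, γ x y - δ / 2 ≤ ‖q y - q x‖ → GG q (mgc q) x y ≠ 0 := by
    intro x y h h0
    have h1 := H1 x y
    have h2 := hnq x y
    rw [abs_le] at h2
    have h3 : γ x y - ‖c y - c x‖ < δ1 := by linarith
    have h4 : δ1 ≤ ‖GG c (mgc c) x y‖ := by
      rcases le_max_iff.1 h1 with h | h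
      · exact h
      · linarith
    have h5 := GG_close L hG.L hcl x y
    rw [h0, zero_sub, norm_neg] at h5
    linarith
  have rayq : ∀ x y, ‖q y - q x‖ = γ x y - δ / 2 → u * GG q (mgc q) x y ∈ slitPlane := by
    intro x y h
    have h1 := H2 x y
    have h2 := hnq x y
    rw [abs_le] at h2
    have h3 : |γ x y - ‖c y - c x‖| < δ2 := by
      rw [abs_lt]; constructor <;> linarith
    have h4 : δ2 ≤ tw (u * GG c (mgc c) x y) := by
      rcases le_max_iff.1 h1 with h | h
      · exact h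
      · linarith
    have h5 := GG_close L hG.L hcl x y
    have h6 := tw_lip (u * GG c (mgc c) x y) (u * GG q (mgc q) x y)
    rw [← mul_sub, norm_mul] at h6
    rw [← tw_pos]
    nlinarith
  -- the base point
  obtain ⟨a, b, hab, hlin⟩ := hG.lin
  obtain ⟨σ, hσ, hσ'⟩ := (Ioo_infinite hab).exists_notMem_finset
    ((hG.fin (|a| + |b|)).toFinset.image Prod.fst)
  obtain ⟨e, η1, he', hη1, hl⟩ := hlin σ hσ
  have hG' := hG.shift σ
  have Sq' := (mgc_sg hG.L).shift hG.L σ
  have h0 : ∀ y, ((0, y) : ℝ × ℝ) ∉ Zq (fun t => q (t + σ)) := by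
    rintro y ⟨⟨h1, h2⟩, h3, h4⟩
    simp only at h1 h2
    rw [range_shift] at h3 h4
    refine hσ' (Finset.mem_image.2 ⟨(0 + σ, y + σ), ?_, by simp⟩)
    rw [Set.Finite.mem_toFinset]
    refine ⟨⟨⟨by simp only; linarith, by simp only; linarith⟩, h3, h4⟩, ?_⟩
    simp only [mem_ofPred_eq, zero_add]
    rw [abs_le]
    have := neg_abs_le a
    have := le_abs_self b
    have := abs_nonneg a
    have := abs_nonneg b
    constructor <;> linarith [hσ.1, hσ.2]
  have hl' : Lin (fun t => q (t + σ)) 0 e η1 := by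
    intro s hs
    show q (0 + s + σ) = q (0 + σ) + s * e
    rw [show 0 + s + σ = σ + s by ring, zero_add]
    exact hl s hs
  have hs2 : √2 ≤ 2 := by
    rw [Real.sqrt_le_left (by norm_num)]; norm_num
  have hs0 := Real.sqrt_nonneg 2
  refine gen_core hG' Sq' h0 he' hη1 hl' (O := O) (k := fun t => kq (t + σ)) (n := n)
    (γ := fun x y => γ (x + σ) (y + σ) - δ / 2) (ckq.comp (by fun_prop)) (fun t => ekq _) hn
    (fun t => ?_) ?_ (fun x y => ?_) (fun x y => ?_) (fun x y => ?_) (fun x y => ?_)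
    (fun x y => ?_) hu (fun x y h => bigq _ _ h) (fun x y h => rayq _ _ h)
  · show kq (t + 1 + σ) = _
    rw [show t + 1 + σ = t + σ + 1 by ring, pkq]
  · exact (hγ.comp (by fun_prop : Continuous fun p : ℝ × ℝ => ((p.1 + σ, p.2 + σ) : ℝ × ℝ))).sub
      continuous_const
  · show γ (x + 1 + σ) (y + σ) - δ / 2 = _
    rw [show x + 1 + σ = x + σ + 1 by ring, γ1]
  · show γ (x + σ) (y + 1 + σ) - δ / 2 = _
    rw [show y + 1 + σ = y + σ + 1 by ring, γ2]
  · have := H3 (x + σ) (y + σ)
    linarith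
  · have h1 := γa (x + σ) (y + σ)
    have h2 : ‖c (x + σ) - O‖ ≤ ‖q (x + σ) - O‖ + ε := by
      have h3 := hcl (x + σ)
      have h4 := norm_sub_norm_le (c (x + σ) - O) (q (x + σ) - O)
      rw [show c (x + σ) - O - (q (x + σ) - O) = -(q (x + σ) - c (x + σ)) by ring, norm_neg] at h4
      linarith
    nlinarith
  · have h1 := γb (x + σ) (y + σ)
    have h2 : ‖c (y + σ) - O‖ ≤ ‖q (y + σ) - O‖ + ε := by
      have h3 := hcl (y + σ)
      have h4 := norm_sub_norm_le (c (y + σ) - O) (q (y + σ) - O)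
      rw [show c (y + σ) - O - (q (y + σ) - O) = -(q (y + σ) - c (y + σ)) by ring, norm_neg] at h4
      linarith
    nlinarith

end Pool.Agent.T2h51.LS
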