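import Pool.Agent.T2h51.LS.Core2
import Pool.Agent.T2h51.LS.Main

/-! Large inscribed squares: one kind of triangles at one scale. -/

set_option autoImplicit false
open Complex Set Topology Metric

namespace Pool.Agent.T2h51.LS
open Pool.Agent.H763R2 Pool.Agent.H763R2.An

variable {c q : ℝ → ℂ}

theorem strip_lower {f : ℝ × ℝ → ℝ} (hf : Continuous f) (h1 : ∀ x y, f (x + 1, y + 1) = f (x, y))
    (h0 : ∀ x y, x ≤ y → y ≤ x + 1 → 0 < f (x, y)) :
    ∃ δ > 0, ∀ x y, x ≤ y → y ≤ x + 1 → δ ≤ f (x, y) := by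
  have hS : IsClosed Ss := by
    have : Ss = {p : ℝ × ℝ | p.1 ≤ p.2} ∩ {p | p.2 ≤ p.1 + 1} := rfl
    rw [this]
    exact (isClosed_le continuous_fst continuous_snd).inter
      (isClosed_le continuous_snd (continuous_fst.add continuous_const))
  have hK : IsCompact ((Icc (0:ℝ) 1 ×ˢ Icc (0:ℝ) 2) ∩ Ss) :=
    (isCompact_Icc.prod isCompact_Icc).inter_right hS
  obtain ⟨p, hp, hmin⟩ := hK.exists_isMinOn ⟨(0, 0), ⟨⟨⟨le_rfl, zero_le_one⟩, ⟨le_rfl, zero_le_two⟩⟩,
    ⟨le_rfl, by simp⟩⟩⟩ hf.continuousOn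
  refine ⟨f p, h0 p.1 p.2 hp.2.1 hp.2.2, fun x y h2 h3 => ?_⟩
  have e1 : ∀ (n : ℤ) x y, f (x + n, y + n) = f (x, y) := by
    intro n x y
    have : Function.Periodic (fun t => f (x + t, y + t)) 1 := fun t => by
      simp only
      rw [← add_assoc, ← add_assoc]; exact h1 _ _
    have := this.int_mul n 0
    simpa using this
  have e : f (Int.fract x, y - ⌊x⌋) = f (x, y) := by
    rw [← e1 ⌊x⌋ (Int.fract x) (y - ⌊x⌋), Int.fract_add_floor, sub_add_cancel]
  rw [← e]
  have f0 := Int.fract_nonneg x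
  have f1 := (Int.fract_lt_one x).le
  have f2 : x - ⌊x⌋ = Int.fract x := rfl
  refine hmin (⟨⟨⟨f0, f1⟩, ⟨?_, ?_⟩⟩, ⟨?_, ?_⟩⟩ :
      ((Int.fract x, y - ⌊x⌋) : ℝ × ℝ) ∈ (Icc (0:ℝ) 1 ×ˢ Icc (0:ℝ) 2) ∩ Ss)
  all_goals simp only; linarith

/-- distance of a point from an arc -/
noncomputable def ad (c : ℝ → ℂ) (V : ℝ × ℝ → ℂ) (A B : ℝ × ℝ → ℝ) (p : ℝ × ℝ) : ℝ :=
  sInf ((fun τ : ℝ => ‖c (A p + τ * (B p - A p)) - V p‖) '' Icc 0 1)

theorem ad_cont {V : ℝ × ℝ → ℂ} {A B : ℝ × ℝ → ℝ} (hc : Continuous c) (hV : Continuous V)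
    (hA : Continuous A) (hB : Continuous B) : Continuous (ad c V A B) := by
  unfold ad
  exact isCompact_Icc.continuous_sInf (f := fun p τ => ‖c (A p + τ * (B p - A p)) - V p‖)
    (by
      show Continuous fun z : (ℝ × ℝ) × ℝ => ‖c (A z.1 + z.2 * (B z.1 - A z.1)) - V z.1‖
      fun_prop)

theorem ad_nn {V : ℝ × ℝ → ℂ} {A B : ℝ × ℝ → ℝ} (p : ℝ × ℝ) : 0 ≤ ad c V A B p := by
  unfold ad
  refine Real.sInf_nonneg ?_
  rintro _ ⟨τ, -, rfl⟩
  exact norm_nonneg _

theorem ad_zero {V : ℝ × ℝ → ℂ} {A B : ℝ × ℝ → ℝ} (hc : Continuous c) {p : ℝ × ℝ}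
    (hAB : A p ≤ B p) (h : ad c V A B p = 0) : ∃ t, A p ≤ t ∧ t ≤ B p ∧ c t = V p := by
  obtain ⟨τ, hτ, hmin⟩ := (isCompact_Icc (a := (0:ℝ)) (b := 1)).exists_isMinOn
    ⟨0, le_rfl, zero_le_one⟩ (f := fun τ : ℝ => ‖c (A p + τ * (B p - A p)) - V p‖)
    (by fun_prop)
  refine ⟨A p + τ * (B p - A p), ?_, ?_, ?_⟩
  · nlinarith [hτ.1]
  · nlinarith [hτ.2]
  · have : ‖c (A p + τ * (B p - A p)) - V p‖ ≤ 0 := by
      rw [← h]
      unfold ad
      refine le_csInf ⟨_, τ, hτ, rfl⟩ ?_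
      rintro _ ⟨τ', hτ', rfl⟩
      exact hmin hτ'
    exact sub_eq_zero.1 (norm_le_zero_iff.1 this)

theorem ad_mem {V : ℝ × ℝ → ℂ} {A B : ℝ × ℝ → ℝ} {p : ℝ × ℝ} {t : ℝ}
    (h1 : A p ≤ t) (h2 : t ≤ B p) (h : c t = V p) : ad c V A B p = 0 := by
  refine le_antisymm ?_ (ad_nn p)
  unfold ad
  refine csInf_le ⟨0, ?_⟩ ?_
  · rintro _ ⟨τ, -, rfl⟩
    exact norm_nonneg _
  rcases h1.lt_or_eq with h3 | h3
  · have h4 : 0 < B p - A p := by linarith
    refine ⟨(t - A p) / (B p - A p), ⟨div_nonneg (by linarith) h4.le, ?_⟩, ?_⟩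
    · rw [div_le_one h4]; linarith
    · simp only
      rw [div_mul_cancel₀ _ h4.ne', add_sub_cancel, h, sub_self, norm_zero]
  · refine ⟨0, ⟨le_rfl, zero_le_one⟩, ?_⟩
    simp only
    rw [zero_mul, add_zero, h3, h, sub_self, norm_zero]

theorem exists_e (L : Loop c) (J : Inj c) {O : ℂ} {n : ℤ} {k : ℝ → ℂ}
    (hk : Continuous k) (he : ∀ t, exp (k t) = c t - O)
    (hkn : ∀ t, k (t + 1) = k t + n * (2 * Real.pi * I))
    {γ : ℝ → ℝ → ℝ} (hγ : Continuous fun p : ℝ × ℝ => γ p.1 p.2)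
    (γ1 : ∀ x y, γ (x + 1) y = γ x y) (γ2 : ∀ x y, γ x (y + 1) = γ x y) (γ0 : ∀ x y, 0 < γ x y)
    (γa : ∀ x y, γ x y ≤ √2 * ‖c x - O‖) (γb : ∀ x y, γ x y ≤ √2 * ‖c y - O‖)
    {G : ℝ × ℝ → ℂ} (hG : Continuous G) (pG : ∀ x y, G (x + 1, y + 1) = G (x, y))
    {V : ℝ × ℝ → ℂ} (hV : Continuous V) (pV : ∀ x y, V (x + 1, y + 1) = V (x, y))
    (Vray : ∀ x y, x < y → y < x + 1 → γ x y ≤ ‖c y - c x‖ → G (x, y) ∉ slitPlane →
      V (x, y) ∈ range c)
    (Vne : ∀ x y, c x ≠ c y → V (x, y) ≠ c x ∧ V (x, y) ≠ c y)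
    (ray : ∀ x y t, x < y → y < x + 1 → ‖c y - c x‖ = γ x y → G (x, y) ∉ slitPlane →
      c t = V (x, y) → (x ≤ t → t ≤ y → sgk k x y < 0) ∧ (y ≤ t → t ≤ x + 1 → 0 < sgk k x y)) :
    ∃ e : ℝ × ℝ → ℝ, Continuous e ∧ (∀ x y, e (x + 1, y + 1) = e (x, y)) ∧
      (∀ x y, x ≤ y → y ≤ x + 1 → γ x y ≤ ‖c y - c x‖ → G (x, y) ∉ slitPlane →
        e (x, y) = 0 ∨ e (x, y) = 1) ∧
      (∀ x y, x ≤ y → y ≤ x + 1 → ‖c y - c x‖ ≤ γ x y → 0 ≤ sgk k x y → e (x, y) = 0) ∧
      (∀ x y, x ≤ y → y ≤ x + 1 → ‖c y - c x‖ ≤ γ x y → sgk k x y ≤ 0 → e (x, y) = 1) := by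
  have cc := L.cont
  set d1 : ℝ × ℝ → ℝ := ad c V (fun p => p.1) (fun p => p.2) with hd1
  set d2 : ℝ × ℝ → ℝ := ad c V (fun p => p.2) (fun p => p.1 + 1) with hd2
  have cd1 : Continuous d1 := ad_cont cc hV continuous_fst continuous_snd
  have cd2 : Continuous d2 := ad_cont cc hV continuous_snd (continuous_fst.add continuous_const)
  have pd1 : ∀ x y, d1 (x + 1, y + 1) = d1 (x, y) := by
    intro x y
    rw [hd1]; unfold ad; simp only
    congr 1
    refine image_congr fun τ _ => ?_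
    rw [pV, show x + 1 + τ * (y + 1 - (x + 1)) = x + τ * (y - x) + 1 by ring, L.per]
  have pd2 : ∀ x y, d2 (x + 1, y + 1) = d2 (x, y) := by
    intro x y
    rw [hd2]; unfold ad; simp only
    congr 1
    refine image_congr fun τ _ => ?_
    rw [pV, show y + 1 + τ * (x + 1 + 1 - (y + 1)) = y + τ * (x + 1 - y) + 1 by ring, L.per]
  set g : ℝ × ℝ → ℝ := fun p => max (γ p.1 p.2 - ‖c p.2 - c p.1‖) 0 + tw (G p) with hg
  set h : ℝ × ℝ → ℝ := fun p => max (‖c p.2 - c p.1‖ - γ p.1 p.2) 0 with hh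
  have cs := sgk_cont hk
  have cg : Continuous g := by have := tw_cont; rw [hg]; fun_prop
  have ch : Continuous h := by rw [hh]; fun_prop
  have pg : ∀ x y, g (x + 1, y + 1) = g (x, y) := fun x y => by
    rw [hg]; simp only; rw [γ1, γ2, L.per, L.per, pG]
  have ph : ∀ x y, h (x + 1, y + 1) = h (x, y) := fun x y => by
    rw [hh]; simp only; rw [γ1, γ2, L.per, L.per]
  set F1 : ℝ × ℝ → ℝ := fun p => (g p + d1 p) * (h p + max (sgk k p.1 p.2) 0) with hF1
  set F0 : ℝ × ℝ → ℝ := fun p => (g p + d2 p) * (h p + max (-sgk k p.1 p.2) 0) with hF0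
  have cF1 : Continuous F1 := by rw [hF1]; fun_prop
  have cF0 : Continuous F0 := by rw [hF0]; fun_prop
  have pF1 : ∀ x y, F1 (x + 1, y + 1) = F1 (x, y) := fun x y => by
    rw [hF1]; simp only; rw [pg, ph, pd1, sgk_per hkn]
  have pF0 : ∀ x y, F0 (x + 1, y + 1) = F0 (x, y) := fun x y => by
    rw [hF0]; simp only; rw [pg, ph, pd2, sgk_per hkn]
  have g0 : ∀ p, 0 ≤ g p := fun p => add_nonneg (le_max_right _ _) (tw_nn _)
  have h0 : ∀ p, 0 ≤ h p := fun p => le_max_right _ _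
  have n1 : ∀ p, 0 ≤ F1 p := fun p => mul_nonneg (add_nonneg (g0 p) (ad_nn p))
    (add_nonneg (h0 p) (le_max_right _ _))
  have n0 : ∀ p, 0 ≤ F0 p := fun p => mul_nonneg (add_nonneg (g0 p) (ad_nn p))
    (add_nonneg (h0 p) (le_max_right _ _))
  have gz : ∀ x y, g (x, y) = 0 → γ x y ≤ ‖c y - c x‖ ∧ G (x, y) ∉ slitPlane := by
    intro x y hz
    rw [hg] at hz
    simp only at hz
    have a1 := le_max_right (γ x y - ‖c y - c x‖) 0
    have a2 := le_max_left (γ x y - ‖c y - c x‖) 0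
    have a3 := tw_nn (G (x, y))
    refine ⟨by linarith, fun hs => ?_⟩
    have := tw_pos.2 hs
    linarith
  have gz' : ∀ x y, γ x y ≤ ‖c y - c x‖ → G (x, y) ∉ slitPlane → g (x, y) = 0 := by
    intro x y a1 a2
    rw [hg]
    simp only
    rw [max_eq_right (by linarith), zero_add]
    rw [← tw_pos] at a2
    exact le_antisymm (not_lt.1 a2) (tw_nn _)
  have hz : ∀ x y, h (x, y) = 0 → ‖c y - c x‖ ≤ γ x y := by
    intro x y hz
    rw [hh] at hz
    simp only at hz
    have a2 := le_max_left (‖c y - c x‖ - γ x y) 0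
    linarith
  have hz' : ∀ x y, ‖c y - c x‖ ≤ γ x y → h (x, y) = 0 := by
    intro x y a
    rw [hh]
    simp only
    exact max_eq_right (by linarith)
  have strict : ∀ x y, x ≤ y → y ≤ x + 1 → γ x y ≤ ‖c y - c x‖ → x < y ∧ y < x + 1 ∧ c x ≠ c y := by
    intro x y a1 a2 a3
    have hne : c x ≠ c y := fun e => by
      rw [e, sub_self, norm_zero] at a3
      linarith [γ0 x y]
    refine ⟨lt_of_le_of_ne a1 fun e => hne (by rw [e]), lt_of_le_of_ne a2 fun e => hne ?_, hne⟩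
    rw [e, L.per]
  have pos : ∀ x y, x ≤ y → y ≤ x + 1 → 0 < F0 (x, y) + F1 (x, y) := by
    intro x y a1 a2
    by_contra hcon
    have b0 := n0 (x, y)
    have b1 := n1 (x, y)
    have z0 : F0 (x, y) = 0 := by linarith
    have z1 : F1 (x, y) = 0 := by linarith
    rw [hF0] at z0
    rw [hF1] at z1
    simp only at z0 z1
    have c1 := g0 (x, y)
    have c2 := h0 (x, y)
    have c3 : 0 ≤ d1 (x, y) := ad_nn _
    have c4 : 0 ≤ d2 (x, y) := ad_nn _
    have c5 := le_max_right (sgk k x y) 0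
    have c6 := le_max_right (-sgk k x y) 0
    have c7 := le_max_left (sgk k x y) 0
    have c8 := le_max_left (-sgk k x y) 0
    rcases mul_eq_zero.1 z0 with e0 | e0 <;> rcases mul_eq_zero.1 z1 with e1 | e1
    · obtain ⟨b1, b2⟩ := gz x y (by linarith)
      obtain ⟨s1, s2, s3⟩ := strict x y a1 a2 b1
      obtain ⟨t, t1, t2, t3⟩ := ad_zero cc (p := (x, y)) (A := fun p => p.1) (B := fun p => p.2)
        a1 (show d1 (x, y) = 0 by linarith)
      obtain ⟨t', t4, t5, t6⟩ := ad_zero cc (p := (x, y)) (A := fun p => p.2)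
        (B := fun p => p.1 + 1) a2 (show d2 (x, y) = 0 by linarith)
      simp only at t1 t2 t4 t5
      obtain ⟨v1, v2⟩ := Vne x y s3
      have r1 : t < y := lt_of_le_of_ne t2 fun e => v2 (by rw [← t3, e])
      have r2 : x < t := lt_of_le_of_ne t1 fun e => v1 (by rw [← t3, e])
      exact J t t' (by linarith) (by linarith) (t3.trans t6.symm)
    · obtain ⟨b1, b2⟩ := gz x y (by linarith)
      obtain ⟨s1, s2, s3⟩ := strict x y a1 a2 b1
      have b3 := hz x y (by linarith)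
      obtain ⟨t', t4, t5, t6⟩ := ad_zero cc (p := (x, y)) (A := fun p => p.2)
        (B := fun p => p.1 + 1) a2 (show d2 (x, y) = 0 by linarith)
      have := (ray x y t' s1 s2 (le_antisymm b3 b1) b2 t6).2 t4 t5
      linarith
    · obtain ⟨b1, b2⟩ := gz x y (by linarith)
      obtain ⟨s1, s2, s3⟩ := strict x y a1 a2 b1
      have b3 := hz x y (by linarith)
      obtain ⟨t, t1, t2, t3⟩ := ad_zero cc (p := (x, y)) (A := fun p => p.1) (B := fun p => p.2)
        a1 (show d1 (x, y) = 0 by linarith)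
      have := (ray x y t s1 s2 (le_antisymm b3 b1) b2 t3).1 t1 t2
      linarith
    · have b3 := hz x y (by linarith)
      exact sgk_ne he b3 (γa x y) (γb x y) (by linarith)
  have posR : ∀ p, 0 < F0 (Rs p) + F1 (Rs p) := fun p => pos _ _ (Rs_mem p).1 (Rs_mem p).2
  refine ⟨fun p => F0 (Rs p) / (F0 (Rs p) + F1 (Rs p)), ?_, ?_, ?_, ?_, ?_⟩
  · exact (cF0.comp Rs_cont).div ((cF0.comp Rs_cont).add (cF1.comp Rs_cont)) fun p => (posR p).ne'
  · intro x y
    simp only
    rw [Rs_shift, pF0, pF1]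
  · intro x y a1 a2 a3 a4
    simp only
    rw [Rs_id ⟨a1, a2⟩]
    obtain ⟨s1, s2, s3⟩ := strict x y a1 a2 a3
    have zg := gz' x y a3 a4
    obtain ⟨t, ht⟩ := Vray x y s1 s2 a3 a4
    have hpos := pos x y a1 a2
    obtain ⟨t', ht1, ht2, ht3⟩ : ∃ t', x ≤ t' ∧ t' ≤ x + 1 ∧ c t' = V (x, y) := by
      refine ⟨t - ⌊t - x⌋, ?_, ?_, ?_⟩
      · have := Int.floor_le (t - x); linarith
      · have := Int.lt_floor_add_one (t - x); linarith
      · have := L.per_int (t - ⌊t - x⌋) ⌊t - x⌋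
        rw [sub_add_cancel] at this
        rw [← this, ht]
    rcases le_total t' y with h1 | h1
    · right
      have : d1 (x, y) = 0 := ad_mem (p := (x, y)) (A := fun p => p.1) (B := fun p => p.2) ht1 h1 ht3
      have z1 : F1 (x, y) = 0 := by rw [hF1]; simp only; rw [zg, this]; ring
      rw [z1, add_zero] at hpos ⊢
      exact div_self hpos.ne'
    · left
      have : d2 (x, y) = 0 := ad_mem (p := (x, y)) (A := fun p => p.2) (B := fun p => p.1 + 1)
        h1 ht2 ht3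
      have z0 : F0 (x, y) = 0 := by rw [hF0]; simp only; rw [zg, this]; ring
      rw [z0, zero_div]
  · intro x y a1 a2 a3 a4
    simp only
    rw [Rs_id ⟨a1, a2⟩]
    have z0 : F0 (x, y) = 0 := by
      rw [hF0]; simp only; rw [hz' x y a3, max_eq_right (by linarith)]; ring
    rw [z0, zero_div]
  · intro x y a1 a2 a3 a4
    simp only
    rw [Rs_id ⟨a1, a2⟩]
    have hpos := pos x y a1 a2
    have z1 : F1 (x, y) = 0 := by
      rw [hF1]; simp only; rw [hz' x y a3, max_eq_right a4]; ring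
    rw [z1, add_zero] at hpos ⊢
    exact div_self hpos.ne'

theorem cos_near {a b r : ℝ} (h : |a - b| ≤ r) : |Real.cos a - Real.cos b| ≤ r := by
  refine le_trans ?_ h
  rw [Real.cos_sub_cos]
  have h1 : |Real.sin ((a - b) / 2)| ≤ |(a - b) / 2| := Real.abs_sin_le_abs
  have h2 := Real.abs_sin_le_one ((a + b) / 2)
  rw [abs_mul, abs_mul, abs_neg, abs_two]
  rw [abs_div, abs_two] at h1
  have h3 := abs_nonneg (Real.sin ((a + b) / 2))
  have h4 := abs_nonneg (Real.sin ((a - b) / 2))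
  nlinarith

theorem main2 (L : Loop c) (J : Inj c) {O : ℂ} {n : ℤ} (hn : Odd n) {k : ℝ → ℂ}
    (hk : Continuous k) (he : ∀ t, exp (k t) = c t - O) (hkn : k 1 - k 0 = n * (2 * Real.pi * I))
    {γ : ℝ → ℝ → ℝ} (hγ : Continuous fun p : ℝ × ℝ => γ p.1 p.2)
    (γ1 : ∀ x y, γ (x + 1) y = γ x y) (γ2 : ∀ x y, γ x (y + 1) = γ x y) (γ0 : ∀ x y, 0 < γ x y)
    (γa : ∀ x y, γ x y ≤ √2 * ‖c x - O‖) (γb : ∀ x y, γ x y ≤ √2 * ‖c y - O‖)
    {u : ℂ} (hu : u ≠ 0)
    (big : ∀ x y, x < y → y < x + 1 → γ x y ≤ ‖c y - c x‖ →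
      ¬ (DD c x y ∈ range c ∧ CC c x y ∈ range c))
    {V : ℝ × ℝ → ℂ} (hV : Continuous V) (pV : ∀ x y, V (x + 1, y + 1) = V (x, y))
    (Vray : ∀ x y, x < y → y < x + 1 → γ x y ≤ ‖c y - c x‖ →
      u * GG c (mgc c) x y ∉ slitPlane → V (x, y) ∈ range c)
    (Vne : ∀ x y, c x ≠ c y → V (x, y) ≠ c x ∧ V (x, y) ≠ c y)
    (ray : ∀ x y t, x < y → y < x + 1 → ‖c y - c x‖ = γ x y →
      u * GG c (mgc c) x y ∉ slitPlane → c t = V (x, y) →
      (x ≤ t → t ≤ y → sgk k x y < 0) ∧ (y ≤ t → t ≤ x + 1 → 0 < sgk k x y)) : False := by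
  classical
  have S := mgc_sg L
  have hkp := k_inc L hk he hkn
  have cGG := GG_cont L S.cont
  have cc := L.cont
  obtain ⟨e, ce, pe, e1, e2, e3⟩ := exists_e (n := n) L J hk he hkp hγ γ1 γ2 γ0 γa γb
    (G := fun p => u * GG c (mgc c) p.1 p.2) (continuous_const.mul cGG)
    (fun x y => by simp only; rw [GG_per L]) hV pV Vray Vne ray
  have γj : ∀ (j : ℤ) x y, γ x (y - j) = γ x y := by
    intro j x y
    have : Function.Periodic (fun y => γ x y) 1 := fun y => γ2 x y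
    have := this.sub_int_mul_eq (x := y) (n := j)
    simpa using this
  have Gj : ∀ (j : ℤ) x y, GG c (mgc c) x (y - j) = GG c (mgc c) x y := by
    intro j x y
    have : Function.Periodic (fun y => GG c (mgc c) x y) 1 := fun y => GG_py L x y
    have := this.sub_int_mul_eq (x := y) (n := j)
    simpa using this
  have cj : ∀ (j : ℤ) y, c (y - j) = c y := by
    intro j y
    have := L.per_int (y - j) j
    rw [sub_add_cancel] at this
    exact this.symm
  have ne_of : ∀ x y, γ x y ≤ ‖c y - c x‖ → c x ≠ c y := by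
    intro x y h h'
    rw [h', sub_self, norm_zero] at h
    exact absurd (γ0 x y) (not_lt.2 h)
  have big' : ∀ x y, γ x y ≤ ‖c y - c x‖ → GG c (mgc c) x y ≠ 0 := by
    intro x y h
    obtain ⟨j, h1, h2⟩ := shift_y L (ne_of x y h)
    have := big x (y - j) h1 h2 (by rw [γj, cj]; exact h)
    rw [← Gj j, GG_ne, S.zero L, S.zero L]
    exact this
  obtain ⟨δ1, hδ1, H1⟩ := per_lower
    (f := fun x y => max ‖GG c (mgc c) x y‖ (γ x y - ‖c y - c x‖))
    (by fun_prop) (fun x y => by rw [GG_px L, γ1, L.per])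
    (fun x y => by rw [GG_py L, γ2, L.per]) (fun x y => by
      rcases le_or_gt (γ x y) ‖c y - c x‖ with h | h
      · exact lt_max_of_lt_left (norm_pos_iff.2 (big' x y h))
      · exact lt_max_of_lt_right (by linarith))
  obtain ⟨δ3, hδ3, H3⟩ := per_lower (f := γ) hγ γ1 γ2 γ0
  have csg := sgk_cont hk
  obtain ⟨δ2, hδ2, H2⟩ := strip_lower
    (f := fun p => max (tw (u * GG c (mgc c) p.1 p.2)) (max (γ p.1 p.2 - ‖c p.2 - c p.1‖)
      (max (1 / 3 - e p) (e p - 2 / 3))))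
    (by have := tw_cont; fun_prop) (fun x y => by
      simp only; rw [GG_per L, γ1, γ2, L.per, L.per, pe]) (fun x y a1 a2 => by
      simp only
      by_cases h : u * GG c (mgc c) x y ∈ slitPlane
      · exact lt_max_of_lt_left (tw_pos.2 h)
      · refine lt_max_of_lt_right ?_
        rcases le_or_gt (γ x y) ‖c y - c x‖ with h' | h'
        · refine lt_max_of_lt_right ?_
          rcases e1 x y a1 a2 h' h with h1 | h1
          · exact lt_max_of_lt_left (by rw [h1]; norm_num)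
          · exact lt_max_of_lt_right (by rw [h1]; norm_num)
        · exact lt_max_of_lt_left (by linarith))
  obtain ⟨δ4, hδ4, H4⟩ := strip_lower
    (f := fun p => max (‖c p.2 - c p.1‖ - γ p.1 p.2) (max (-sgk k p.1 p.2) (1 / 3 - e p)))
    (by fun_prop) (fun x y => by
      simp only; rw [sgk_per hkp, γ1, γ2, L.per, L.per, pe]) (fun x y a1 a2 => by
      simp only
      rcases le_or_gt ‖c y - c x‖ (γ x y) with h | h
      · refine lt_max_of_lt_right ?_
        rcases le_or_gt 0 (sgk k x y) with h' | h'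
        · exact lt_max_of_lt_right (by rw [e2 x y a1 a2 h h']; norm_num)
        · exact lt_max_of_lt_left (by linarith)
      · exact lt_max_of_lt_left (by linarith))
  obtain ⟨δ5, hδ5, H5⟩ := strip_lower
    (f := fun p => max (‖c p.2 - c p.1‖ - γ p.1 p.2) (max (sgk k p.1 p.2) (e p - 2 / 3)))
    (by fun_prop) (fun x y => by
      simp only; rw [sgk_per hkp, γ1, γ2, L.per, L.per, pe]) (fun x y a1 a2 => by
      simp only
      rcases le_or_gt ‖c y - c x‖ (γ x y) with h | h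
      · refine lt_max_of_lt_right ?_
        rcases le_or_gt (sgk k x y) 0 with h' | h'
        · exact lt_max_of_lt_right (by rw [e3 x y a1 a2 h h']; norm_num)
        · exact lt_max_of_lt_left h'
      · exact lt_max_of_lt_left (by linarith))
  set δ := min (min δ1 δ2) (min δ3 (min δ4 δ5)) with hδ
  have hδp : 0 < δ := by positivity
  have d1 : δ ≤ δ1 := (min_le_left _ _).trans (min_le_left _ _)
  have d2 : δ ≤ δ2 := (min_le_left _ _).trans (min_le_right _ _)
  have d3 : δ ≤ δ3 := (min_le_right _ _).trans (min_le_left _ _)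
  have d4 : δ ≤ δ4 := (min_le_right _ _).trans ((min_le_right _ _).trans (min_le_left _ _))
  have d5 : δ ≤ δ5 := (min_le_right _ _).trans ((min_le_right _ _).trans (min_le_right _ _))
  set ε := min (δ / (48 * (1 + ‖u‖))) (δ ^ 2 / 12) with hε
  have hun := norm_nonneg u
  have hεp : 0 < ε := by positivity
  have hε1 : ε * (48 * (1 + ‖u‖)) ≤ δ := by
    have : ε ≤ δ / (48 * (1 + ‖u‖)) := min_le_left _ _
    rwa [le_div_iff₀ (by positivity)] at this
  have hε4 : 12 * ε ≤ δ ^ 2 := by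
    have : ε ≤ δ ^ 2 / 12 := min_le_right _ _
    linarith
  have hε2 : 48 * ε ≤ δ := by nlinarith
  have hε3 : 48 * (‖u‖ * ε) ≤ δ := by nlinarith
  obtain ⟨q, hG, hcl⟩ := approx L hεp
  -- the lifted logarithm
  have far : ∀ t, δ / 2 ≤ ‖c t - O‖ := by
    intro t
    have h1 := (H3 t t).trans (γa t t)
    have hs2 : √2 ≤ 2 := by
      rw [Real.sqrt_le_left (by norm_num)]; norm_num
    have hn0 := norm_nonneg (c t - O)
    nlinarith
  have hz : ∀ t, ‖(q t - c t) / (c t - O)‖ ≤ 2 * ε / δ := by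
    intro t
    have h1 := far t
    rw [norm_div, div_le_div_iff₀ (by linarith) hδp]
    have := hcl t
    nlinarith [norm_nonneg (q t - c t)]
  have hz2 : 2 * ε / δ ≤ 1 / 24 := by
    rw [div_le_div_iff₀ hδp (by norm_num)]
    linarith
  have hre : ∀ t, (q t - O) / (c t - O) = 1 + (q t - c t) / (c t - O) := by
    intro t
    have h0 : c t - O ≠ 0 := norm_pos_iff.1 (by linarith [far t])
    field_simp; ring
  have hrat : ∀ t, (q t - O) / (c t - O) ∈ slitPlane := by
    intro t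
    left
    rw [hre, add_re, one_re]
    have := (abs_le.1 (abs_re_le_norm ((q t - c t) / (c t - O)))).1
    linarith [hz t]
  have hlog : ∀ t, ‖log ((q t - O) / (c t - O))‖ ≤ 3 * ε / δ := by
    intro t
    rw [hre]
    refine (Complex.norm_log_one_add_half_le_self ((hz t).trans (hz2.trans (by norm_num)))).trans ?_
    have := hz t
    have e : 3 * ε / δ = 3 / 2 * (2 * ε / δ) := by ring
    rw [e]
    exact mul_le_mul_of_nonneg_left this (by norm_num)
  have cq := hG.L.cont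
  set kq : ℝ → ℂ := fun t => k t + log ((q t - O) / (c t - O)) with hkq
  have ckq : Continuous kq := by
    refine hk.add (Continuous.clog ?_ hrat)
    refine (cq.sub continuous_const).div (cc.sub continuous_const) fun t => ?_
    rw [← he]; exact exp_ne_zero _
  have ekq : ∀ t, exp (kq t) = q t - O := by
    intro t
    have h0 : c t - O ≠ 0 := by rw [← he]; exact exp_ne_zero _
    rw [hkq]
    simp only
    rw [exp_add, he, exp_log (slitPlane_ne_zero (hrat t))]
    field_simp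
  have pkq : ∀ t, kq (t + 1) = kq t + n * (2 * Real.pi * I) := by
    intro t
    rw [hkq]
    simp only
    rw [hkp, hG.L.per, L.per]; ring
  have hsk : ∀ x y, |sgk kq x y - sgk k x y| < δ := by
    intro x y
    have h1 : |sgk kq x y - sgk k x y| ≤ 3 * ε / δ := by
      unfold sgk
      refine cos_near ?_
      rw [← sub_div, ← sub_im, hkq]
      simp only
      rw [show k y + log ((q y - O) / (c y - O)) - (k x + log ((q x - O) / (c x - O))) -
        (k y - k x) = log ((q y - O) / (c y - O)) - log ((q x - O) / (c x - O)) by ring,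
        abs_div, abs_two, div_le_iff₀ (by norm_num)]
      refine (abs_im_le_norm _).trans ((norm_sub_le _ _).trans ?_)
      linarith [hlog x, hlog y]
    refine h1.trans_lt ?_
    rw [div_lt_iff₀ hδp]
    nlinarith
  have hnq : ∀ x y, |‖q y - q x‖ - ‖c y - c x‖| ≤ 2 * ε := by
    intro x y
    have h1 := abs_norm_sub_norm_le (q y - q x) (c y - c x)
    have e : q y - q x - (c y - c x) = (q y - c y) - (q x - c x) := by ring
    rw [e] at h1
    have h2 := norm_sub_le (q y - c y) (q x - c x)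
    have := hcl x
    have := hcl y
    linarith
  have bigq : ∀ x y, γ x y - δ / 2 ≤ ‖q y - q x‖ → GG q (mgc q) x y ≠ 0 := by
    intro x y h h0
    have h1 := H1 x y
    have h2 := hnq x y
    rw [abs_le] at h2
    have h3 : γ x y - ‖c y - c x‖ < δ1 := by linarith
    have h4 : δ1 ≤ ‖GG c (mgc c) x y‖ := by
      rcases le_max_iff.1 h1 with h | h
      · exact h
      · linarith
    have h5 := GG_close L hG.L hcl x y
    rw [h0, zero_sub, norm_neg] at h5
    linarith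
  set χ : ℝ × ℝ → ℝ := fun p => max 0 (min 1 (3 * e p - 1)) with hχ
  have χz : ∀ p, e p ≤ 1 / 3 → χ p = 0 := by
    intro p hp
    rw [hχ]
    simp only
    exact max_eq_left ((min_le_right _ _).trans (by linarith))
  have χo : ∀ p, 2 / 3 ≤ e p → χ p = 1 := by
    intro p hp
    rw [hχ]
    simp only
    rw [min_eq_left (by linarith), max_eq_right zero_le_one]
  have rq1 : ∀ x y, x ≤ y → y ≤ x + 1 → γ x y - δ / 2 ≤ ‖q y - q x‖ →
      u * GG q (mgc q) x y ∉ slitPlane → χ (x, y) = 0 ∨ χ (x, y) = 1 := by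
    intro x y a1 a2 h hs
    have h1 := H2 x y a1 a2
    simp only at h1
    have h2 := hnq x y
    rw [abs_le] at h2
    have h5 := GG_close L hG.L hcl x y
    have h6 := tw_lip (u * GG c (mgc c) x y) (u * GG q (mgc q) x y)
    rw [← mul_sub, norm_mul] at h6
    have h7 : tw (u * GG q (mgc q) x y) = 0 := by
      rw [← tw_pos] at hs
      exact le_antisymm (not_lt.1 hs) (tw_nn _)
    rcases le_max_iff.1 h1 with h8 | h8
    · exfalso
      nlinarith
    rcases le_max_iff.1 h8 with h9 | h9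
    · exfalso
      linarith
    rcases le_max_iff.1 h9 with h10 | h10
    · left; exact χz _ (by linarith)
    · right; exact χo _ (by linarith)
  have rq2 : ∀ x y, x ≤ y → y ≤ x + 1 → ‖q y - q x‖ ≤ γ x y - δ / 2 → 0 < sgk kq x y →
      χ (x, y) = 0 := by
    intro x y a1 a2 h hs
    have h1 := H4 x y a1 a2
    simp only at h1
    have h2 := hnq x y
    rw [abs_le] at h2
    have h3 := hsk x y
    rw [abs_lt] at h3
    rcases le_max_iff.1 h1 with h8 | h8
    · exfalso; linarith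
    rcases le_max_iff.1 h8 with h9 | h9
    · exfalso; linarith
    · exact χz _ (by linarith)
  have rq3 : ∀ x y, x ≤ y → y ≤ x + 1 → ‖q y - q x‖ ≤ γ x y - δ / 2 → sgk kq x y < 0 →
      χ (x, y) = 1 := by
    intro x y a1 a2 h hs
    have h1 := H5 x y a1 a2
    simp only at h1
    have h2 := hnq x y
    rw [abs_le] at h2
    have h3 := hsk x y
    rw [abs_lt] at h3
    rcases le_max_iff.1 h1 with h8 | h8
    · exfalso; linarith
    rcases le_max_iff.1 h8 with h9 | h9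
    · exfalso; linarith
    · exact χo _ (by linarith)
  -- the base point
  obtain ⟨a, b, hab, hlin⟩ := hG.lin
  obtain ⟨σ, hσ, hσ'⟩ := (Ioo_infinite hab).exists_notMem_finset
    ((hG.fin (|a| + |b|)).toFinset.image Prod.fst)
  obtain ⟨e', η1, he', hη1, hl⟩ := hlin σ hσ
  have hG' := hG.shift σ
  have Sq' := (mgc_sg hG.L).shift hG.L σ
  have h0 : ∀ y, ((0, y) : ℝ × ℝ) ∉ Zq (fun t => q (t + σ)) := by
    rintro y ⟨⟨h1, h2⟩, h3, h4⟩
    simp only at h1 h2
    rw [range_shift] at h3 h4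
    refine hσ' (Finset.mem_image.2 ⟨(0 + σ, y + σ), ?_, by simp⟩)
    rw [Set.Finite.mem_toFinset]
    refine ⟨⟨⟨by simp only; linarith, by simp only; linarith⟩, h3, h4⟩, ?_⟩
    simp only [mem_ofPred_eq, zero_add]
    rw [abs_le]
    have := neg_abs_le a
    have := le_abs_self b
    have := abs_nonneg a
    have := abs_nonneg b
    constructor <;> linarith [hσ.1, hσ.2]
  have hl' : Lin (fun t => q (t + σ)) 0 e' η1 := by
    intro s hs
    show q (0 + s + σ) = q (0 + σ) + s * e'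
    rw [show 0 + s + σ = σ + s by ring, zero_add]
    exact hl s hs
  have hs2 : √2 ≤ 2 := by
    rw [Real.sqrt_le_left (by norm_num)]; norm_num
  have hs0 := Real.sqrt_nonneg 2
  refine gen_core2 hG' Sq' h0 he' hη1 hl' (O := O) (k := fun t => kq (t + σ)) (n := n)
    (γ := fun x y => γ (x + σ) (y + σ) - δ / 2) (δ := δ / 2)
    (χ := fun p => χ (p.1 + σ, p.2 + σ)) (ckq.comp (by fun_prop)) (fun t => ekq _) hn
    (fun t => ?_) ?_ (fun x y => ?_) (fun x y => ?_) (by positivity) (fun x y => ?_)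
    (fun x y => ?_) (fun x y => ?_) hu (fun x y h => bigq _ _ h) ?_ (fun x y => ?_)
    (fun x y h1 h2 h3 h4 => ?_) (fun x y h1 h2 h3 h4 => ?_) (fun x y h1 h2 h3 h4 => ?_)
  · show kq (t + 1 + σ) = _
    rw [show t + 1 + σ = t + σ + 1 by ring, pkq]
  · exact (hγ.comp (by fun_prop : Continuous fun p : ℝ × ℝ => ((p.1 + σ, p.2 + σ) : ℝ × ℝ))).sub
      continuous_const
  · show γ (x + 1 + σ) (y + σ) - δ / 2 = _
    rw [show x + 1 + σ = x + σ + 1 by ring, γ1]
  · show γ (x + σ) (y + 1 + σ) - δ / 2 = _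
    rw [show y + 1 + σ = y + σ + 1 by ring, γ2]
  · have := H3 (x + σ) (y + σ)
    linarith
  · have h1 := γa (x + σ) (y + σ)
    have h2 : ‖c (x + σ) - O‖ ≤ ‖q (x + σ) - O‖ + ε := by
      have h3 := hcl (x + σ)
      have h4 := norm_sub_norm_le (c (x + σ) - O) (q (x + σ) - O)
      rw [show c (x + σ) - O - (q (x + σ) - O) = -(q (x + σ) - c (x + σ)) by ring, norm_neg] at h4
      linarith
    nlinarith
  · have h1 := γb (x + σ) (y + σ)
    have h2 : ‖c (y + σ) - O‖ ≤ ‖q (y + σ) - O‖ + ε := by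
      have h3 := hcl (y + σ)
      have h4 := norm_sub_norm_le (c (y + σ) - O) (q (y + σ) - O)
      rw [show c (y + σ) - O - (q (y + σ) - O) = -(q (y + σ) - c (y + σ)) by ring, norm_neg] at h4
      linarith
    nlinarith
  · rw [hχ]
    have : Continuous fun p : ℝ × ℝ => e (p.1 + σ, p.2 + σ) := ce.comp (by fun_prop)
    fun_prop
  · show χ (x + 1 + σ, y + 1 + σ) = χ (x + σ, y + σ)
    rw [show x + 1 + σ = x + σ + 1 by ring, show y + 1 + σ = y + σ + 1 by ring, hχ]
    simp only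
    rw [pe]
  · exact rq1 _ _ (by linarith) (by linarith) h3 h4
  · exact rq2 _ _ (by linarith) (by linarith) h3 h4
  · exact rq3 _ _ (by linarith) (by linarith) h3 h4

end Pool.Agent.T2h51.LS
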