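import Pool.Agent.T2h51.LS.Cut

/-! The parity of the number of sides of inscribed squares around which an arc winds oddly. -/

set_option autoImplicit false
open Complex Set Topology Metric

namespace Pool.Agent.T2h51.LS
open Pool.Agent.H763R2 Pool.Agent.H763R2.An

variable {q : ℝ → ℂ} {M : ℂ → ℝ} {κ : ZMod 2}

theorem P_fin (hG : Gen q) : {p : ℝ × ℝ | SqP q p.1 p.2}.Finite := by
  refine ((hG.fin 3).image (fun z : ℝ × ℝ => (z.1, Int.fract z.2))).subset ?_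
  rintro ⟨a, b⟩ h
  have h : SqP q a b := h
  obtain ⟨h1, h2, h3⟩ := h.toZ hG.L
  have ha := h.ha
  have hb := h.hb
  have haa : |a| ≤ 3 := by rw [abs_le]; constructor <;> linarith [ha.1, ha.2]
  have fb : Int.fract b = b := Int.fract_eq_self.2 hb
  rcases lt_or_gt_of_ne h3 with hab | hab
  · exact ⟨(a, b), ⟨h1 hab, haa⟩, by simp [fb]⟩
  · exact ⟨(a, b + 1), ⟨h2 hab, haa⟩, by simp [fb]⟩

/-- the next side -/
noncomputable def Rt (q : ℝ → ℂ) (p : ℝ × ℝ) : ℝ × ℝ := (p.2, pr q (CC q p.1 p.2))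

/-- the previous side -/
noncomputable def Tt (q : ℝ → ℂ) (p : ℝ × ℝ) : ℝ × ℝ := (pr q (DD q p.1 p.2), p.1)

theorem Rt_w (L : Loop q) {p : ℝ × ℝ} (h : SqP q p.1 p.2) :
    q (Rt q p).2 - q (Rt q p).1 = I * (q p.2 - q p.1) := by
  obtain ⟨h1, h2⟩ := pr_spec L h.hC
  unfold Rt
  simp only
  rw [h2]
  unfold CC Sq.Cv
  ring

theorem Tt_w (L : Loop q) {p : ℝ × ℝ} (h : SqP q p.1 p.2) :
    I * (q (Tt q p).2 - q (Tt q p).1) = q p.2 - q p.1 := by
  obtain ⟨h1, h2⟩ := pr_spec L h.hD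
  unfold Tt
  simp only
  rw [h2]
  unfold DD Sq.Dv
  linear_combination (-(q p.2 - q p.1)) * I_mul_I

theorem Tt_Rt (hG : Gen q) {p : ℝ × ℝ} (h : SqP q p.1 p.2) : Tt q (Rt q p) = p := by
  obtain ⟨s1, s2, -, -⟩ := hG.sq _ _ h.ne h.hD h.hC
  obtain ⟨h1, h2⟩ := pr_spec hG.L h.hC
  unfold Tt Rt
  simp only
  rw [rot_DD h2, pr_eq hG.L s1 h.ha rfl]

theorem Rt_Tt (hG : Gen q) {p : ℝ × ℝ} (h : SqP q p.1 p.2) : Rt q (Tt q p) = p := by
  obtain ⟨s1, s2, -, -⟩ := hG.sq _ _ h.ne h.hD h.hC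
  obtain ⟨h1, h2⟩ := pr_spec hG.L h.hD
  unfold Tt Rt
  simp only
  rw [tor_CC h2, pr_eq hG.L s2 h.hb rfl]

open Classical in
theorem shift_sum (hG : Gen q) (A B : ℂ → Prop) (hAB : ∀ w, A w ↔ B (I * w))
    (f : ℝ × ℝ → ZMod 2) :
    ∑ p ∈ (P_fin hG).toFinset.filter (fun p => B (q p.2 - q p.1)), f p =
    ∑ p ∈ (P_fin hG).toFinset.filter (fun p => A (q p.2 - q p.1)), f (Rt q p) := by
  have L := hG.L
  refine Finset.sum_nbij' (Tt q) (Rt q) ?_ ?_ ?_ ?_ ?_
  · intro p hp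
    simp only [Finset.mem_filter, Set.Finite.mem_toFinset, mem_ofPred_eq] at hp ⊢
    refine ⟨hp.1.tor L, (hAB _).2 ?_⟩
    rw [Tt_w L hp.1]; exact hp.2
  · intro p hp
    simp only [Finset.mem_filter, Set.Finite.mem_toFinset, mem_ofPred_eq] at hp ⊢
    refine ⟨hp.1.rot L, ?_⟩
    rw [Rt_w L hp.1]; exact (hAB _).1 hp.2
  · intro p hp
    simp only [Finset.mem_filter, Set.Finite.mem_toFinset, mem_ofPred_eq] at hp
    exact Rt_Tt hG hp.1
  · intro p hp
    simp only [Finset.mem_filter, Set.Finite.mem_toFinset, mem_ofPred_eq] at hp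
    exact Tt_Rt hG hp.1
  · intro p hp
    simp only [Finset.mem_filter, Set.Finite.mem_toFinset, mem_ofPred_eq] at hp
    rw [Rt_Tt hG hp.1]

def q0 (w : ℂ) : Prop := 0 < w.re ∧ 0 ≤ w.im
def q1 (w : ℂ) : Prop := 0 < w.im ∧ w.re ≤ 0
def q2 (w : ℂ) : Prop := w.re < 0 ∧ w.im ≤ 0
def q3 (w : ℂ) : Prop := w.im < 0 ∧ 0 ≤ w.re

theorem q01 (w : ℂ) : q0 w ↔ q1 (I * w) := by simp [q0, q1]
theorem q12 (w : ℂ) : q1 w ↔ q2 (I * w) := by simp [q1, q2]
theorem q23 (w : ℂ) : q2 w ↔ q3 (I * w) := by simp [q2, q3]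

theorem q_all {w : ℂ} (h : w ≠ 0) : q0 w ∨ q1 w ∨ q2 w ∨ q3 w := by
  unfold q0 q1 q2 q3
  rcases lt_trichotomy w.re 0 with h1 | h1 | h1 <;> rcases lt_trichotomy w.im 0 with h2 | h2 | h2
  · right; right; left; exact ⟨h1, h2.le⟩
  · right; right; left; exact ⟨h1, h2.le⟩
  · right; left; exact ⟨h2, h1.le⟩
  · right; right; right; exact ⟨h2, h1.ge⟩
  · exact absurd (Complex.ext h1 h2) h
  · right; left; exact ⟨h2, h1.le⟩
  · right; right; right; exact ⟨h2, h1.le⟩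
  · left; exact ⟨h1, h2.ge⟩
  · left; exact ⟨h1, h2.le⟩

open Classical in
theorem cyc_sum (hG : Gen q) (f : ℝ × ℝ → ZMod 2)
    (hf : ∀ p : ℝ × ℝ, SqP q p.1 p.2 → f p + f (Rt q p) + f (Rt q (Rt q p)) +
      f (Rt q (Rt q (Rt q p))) = 0) : ∑ p ∈ (P_fin hG).toFinset, f p = 0 := by
  set P := (P_fin hG).toFinset with hP
  set A : (ℂ → Prop) → Finset (ℝ × ℝ) := fun B => P.filter (fun p => B (q p.2 - q p.1)) with hA
  have e1 : ∀ g : ℝ × ℝ → ZMod 2, ∑ p ∈ A q1, g p = ∑ p ∈ A q0, g (Rt q p) :=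
    fun g => shift_sum hG q0 q1 q01 g
  have e2 : ∀ g : ℝ × ℝ → ZMod 2, ∑ p ∈ A q2, g p = ∑ p ∈ A q1, g (Rt q p) :=
    fun g => shift_sum hG q1 q2 q12 g
  have e3 : ∀ g : ℝ × ℝ → ZMod 2, ∑ p ∈ A q3, g p = ∑ p ∈ A q2, g (Rt q p) :=
    fun g => shift_sum hG q2 q3 q23 g
  have hun : P = A q0 ∪ A q1 ∪ A q2 ∪ A q3 := by
    ext p
    simp only [hA, Finset.mem_union, Finset.mem_filter]
    constructor
    · intro hp
      have h : SqP q p.1 p.2 := by simpa [hP] using hp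
      have := q_all (sub_ne_zero.2 h.ne.symm)
      tauto
    · tauto
  have d : ∀ B B' : ℂ → Prop, (∀ w, B w → B' w → False) → Disjoint (A B) (A B') := by
    intro B B' h
    rw [Finset.disjoint_left]
    intro p hp hp'
    simp only [hA, Finset.mem_filter] at hp hp'
    exact h _ hp.2 hp'.2
  have d01 := d q0 q1 fun w h h' => by unfold q0 at h; unfold q1 at h'; linarith [h.1, h'.2]
  have d02 := d q0 q2 fun w h h' => by unfold q0 at h; unfold q2 at h'; linarith [h.1, h'.1]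
  have d03 := d q0 q3 fun w h h' => by unfold q0 at h; unfold q3 at h'; linarith [h.2, h'.1]
  have d12 := d q1 q2 fun w h h' => by unfold q1 at h; unfold q2 at h'; linarith [h.1, h'.2]
  have d13 := d q1 q3 fun w h h' => by unfold q1 at h; unfold q3 at h'; linarith [h.1, h'.1]
  have d23 := d q2 q3 fun w h h' => by unfold q2 at h; unfold q3 at h'; linarith [h.1, h'.2]
  rw [hun, Finset.sum_union (by
      rw [Finset.disjoint_union_left, Finset.disjoint_union_left]; exact ⟨⟨d03, d13⟩, d23⟩),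
    Finset.sum_union (by rw [Finset.disjoint_union_left]; exact ⟨d02, d12⟩),
    Finset.sum_union d01, e3, e2, e1, e2, e1, e1, ← Finset.sum_add_distrib,
    ← Finset.sum_add_distrib, ← Finset.sum_add_distrib]
  refine Finset.sum_eq_zero fun p hp => ?_
  simp only [hA, Finset.mem_filter] at hp
  exact hf p (by simpa [hP] using hp.1)

/-- the sign which tells the parity of the winding of an arc and its chord -/
noncomputable def sgk (k : ℝ → ℂ) (x y : ℝ) : ℝ := Real.cos ((k y - k x).im / 2)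

open Classical in
noncomputable def fk (k : ℝ → ℂ) (p : ℝ × ℝ) : ZMod 2 := if sgk k p.1 p.2 < 0 then 1 else 0

theorem half_arg {w : ℂ} (h : 0 < w.re) : w.arg ∈ Ioo (-(Real.pi / 2)) (Real.pi / 2) := by
  rw [mem_Ioo, neg_pi_div_two_lt_arg_iff, arg_lt_pi_div_two_iff]
  exact ⟨Or.inl h, Or.inl h⟩

theorem fk_eq {k : ℝ → ℂ} {O ν : ℂ} (hk : ∀ t, exp (k t) = q t - O) (hν : ν ≠ 0) {a : ℝ}
    (h : 0 < (ν * (q a - O)).re) : ∃ m : ℤ, (k a).im =
      (ν * (q a - O)).arg - ν.arg + 2 * Real.pi * m := by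
  have h0 : ν * (q a - O) ≠ 0 := by
    intro h'
    rw [h'] at h
    simp at h
  have e : exp (log ν + k a) = exp (log (ν * (q a - O))) := by
    rw [exp_add, exp_log hν, hk, exp_log h0]
  obtain ⟨m, hm⟩ := exp_eq_exp_iff_exists_int.1 e
  refine ⟨m, ?_⟩
  have := congrArg Complex.im hm
  simp [log_im] at this
  linarith

theorem fk_val {k : ℝ → ℂ} {a b φ ψ θ : ℝ} {m n : ℤ} (ha : (k a).im = φ - θ + 2 * Real.pi * m)
    (hb : (k b).im = ψ - θ + 2 * Real.pi * n) (hφ : φ ∈ Ioo (-(Real.pi / 2)) (Real.pi / 2))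
    (hψ : ψ ∈ Ioo (-(Real.pi / 2)) (Real.pi / 2)) : fk k (a, b) = ((n - m : ℤ) : ZMod 2) := by
  have hc : 0 < Real.cos ((ψ - φ) / 2) :=
    Real.cos_pos_of_mem_Ioo ⟨by linarith [hφ.2, hψ.1], by linarith [hφ.1, hψ.2]⟩
  have e : sgk k a b = (-1) ^ (n - m) * Real.cos ((ψ - φ) / 2) := by
    unfold sgk
    rw [sub_im, ha, hb, show (ψ - θ + 2 * Real.pi * n - (φ - θ + 2 * Real.pi * m)) / 2 =
      (ψ - φ) / 2 + ((n - m : ℤ) : ℝ) * Real.pi by push_cast; ring, Real.cos_add_int_mul_pi]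
  unfold fk
  simp only
  rw [e]
  rcases Int.even_or_odd (n - m) with h | h
  · rw [h.neg_one_zpow, one_mul, if_neg (by linarith)]
    obtain ⟨r, hr⟩ := h
    rw [hr]
    push_cast
    have : ∀ x : ZMod 2, x + x = 0 := by decide
    exact (this _).symm
  · rw [h.neg_one_zpow, if_pos (by linarith)]
    obtain ⟨r, hr⟩ := h
    rw [hr]
    push_cast
    have h2 : (2 : ZMod 2) = 0 := by decide
    rw [h2]; simp

/-- four points in a half plane -/
theorem fk_cyc {k : ℝ → ℂ} {O ν : ℂ} (hk : ∀ t, exp (k t) = q t - O) (hν : ν ≠ 0)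
    {a b c d : ℝ} (ha : 0 < (ν * (q a - O)).re) (hb : 0 < (ν * (q b - O)).re)
    (hc : 0 < (ν * (q c - O)).re) (hd : 0 < (ν * (q d - O)).re) :
    fk k (a, b) + fk k (b, c) + fk k (c, d) + fk k (d, a) = 0 := by
  obtain ⟨ma, ea⟩ := fk_eq hk hν ha
  obtain ⟨mb, eb⟩ := fk_eq hk hν hb
  obtain ⟨mc, ec⟩ := fk_eq hk hν hc
  obtain ⟨md, ed⟩ := fk_eq hk hν hd
  rw [fk_val ea eb (half_arg ha) (half_arg hb), fk_val eb ec (half_arg hb) (half_arg hc),
    fk_val ec ed (half_arg hc) (half_arg hd), fk_val ed ea (half_arg hd) (half_arg ha)]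
  push_cast
  ring

/-- a point far from the vertices of a square is separated from them by a line -/
theorem sep_square {A w O : ℂ} (hw : w ≠ 0) (h1 : ‖w‖ < √2 * ‖A - O‖)
    (h2 : ‖w‖ < √2 * ‖A + w - O‖) (h3 : ‖w‖ < √2 * ‖A + w + I * w - O‖)
    (h4 : ‖w‖ < √2 * ‖A + I * w - O‖) : ∃ ν : ℂ, ν ≠ 0 ∧ 0 < (ν * (A - O)).re ∧
      0 < (ν * (A + w - O)).re ∧ 0 < (ν * (A + w + I * w - O)).re ∧
      0 < (ν * (A + I * w - O)).re := by
  set d : ℂ := A + (1 + I) * w / 2 - O with hd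
  set ζ : ℂ := d / w with hζ
  have hdw : d = ζ * w := by rw [hζ, div_mul_cancel₀ _ hw]
  have hwn : 0 < ‖w‖ := norm_pos_iff.2 hw
  have key : ∀ ε : ℂ, ‖w‖ < √2 * ‖(ζ + ε) * w‖ → 1 < 2 * normSq (ζ + ε) := by
    intro ε h
    rw [norm_mul] at h
    have h' : 1 < √2 * ‖ζ + ε‖ := by
      by_contra hn
      push Not at hn
      nlinarith
    have h'' : (1:ℝ) < (√2 * ‖ζ + ε‖) ^ 2 := by nlinarith
    rw [mul_pow, Real.sq_sqrt (by norm_num), ← normSq_eq_norm_sq] at h''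
    exact h''
  have e1 : A - O = (ζ + (-1 - I) / 2) * w := by
    rw [add_mul, ← hdw, hd]; ring
  have e2 : A + w - O = (ζ + (1 - I) / 2) * w := by
    rw [add_mul, ← hdw, hd]; ring
  have e3 : A + w + I * w - O = (ζ + (1 + I) / 2) * w := by
    rw [add_mul, ← hdw, hd]; ring
  have e4 : A + I * w - O = (ζ + (-1 + I) / 2) * w := by
    rw [add_mul, ← hdw, hd]; ring
  rw [e1] at h1
  rw [e2] at h2
  rw [e3] at h3
  rw [e4] at h4
  have k1 := key _ h1
  have k2 := key _ h2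
  have k3 := key _ h3
  have k4 := key _ h4
  rw [normSq_apply] at k1 k2 k3 k4
  simp at k1 k2 k3 k4
  set a := ζ.re with ha
  set b := ζ.im with hb
  have hab : 1 / 2 < a * a + b * b := by
    by_contra hn
    push Not at hn
    have ha1 : |a| ≤ 1 := by
      rw [← sq_le_one_iff_abs_le_one]; nlinarith [mul_self_nonneg b]
    have hb1 : |b| ≤ 1 := by
      rw [← sq_le_one_iff_abs_le_one]; nlinarith [mul_self_nonneg a]
    rw [abs_le] at ha1 hb1
    rcases le_total 0 a with g | g <;> rcases le_total 0 b with g' | g'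
    · nlinarith [mul_nonneg g (sub_nonneg.2 ha1.2), mul_nonneg g' (sub_nonneg.2 hb1.2)]
    · nlinarith [mul_nonneg g (sub_nonneg.2 ha1.2),
        mul_nonneg (neg_nonneg.2 g') (by linarith : 0 ≤ 1 + b)]
    · nlinarith [mul_nonneg (neg_nonneg.2 g) (by linarith : 0 ≤ 1 + a),
        mul_nonneg g' (sub_nonneg.2 hb1.2)]
    · nlinarith [mul_nonneg (neg_nonneg.2 g) (by linarith : 0 ≤ 1 + a),
        mul_nonneg (neg_nonneg.2 g') (by linarith : 0 ≤ 1 + b)]
  have hd0 : d ≠ 0 := by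
    rw [hdw]
    refine mul_ne_zero ?_ hw
    intro h
    rw [ha, hb, h] at hab
    norm_num at hab
  -- the real part
  have hre : ∀ ε : ℂ, ((starRingEnd ℂ) d * ((ζ + ε) * w)).re =
      ‖w‖ ^ 2 * (a * a + b * b + (a * ε.re + b * ε.im)) := by
    intro ε
    have : (starRingEnd ℂ) d * ((ζ + ε) * w) =
        (starRingEnd ℂ) ζ * (ζ + ε) * ((starRingEnd ℂ) w * w) := by
      rw [hdw, map_mul]; ring
    rw [this, ← normSq_eq_conj_mul_self, normSq_eq_norm_sq, re_mul_ofReal]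
    simp
    ring
  have hab2 : (a + b) ^ 2 < 2 * (a * a + b * b) ^ 2 * 2 := by
    nlinarith [sq_nonneg (a - b)]
  have hab3 : (a - b) ^ 2 < 2 * (a * a + b * b) ^ 2 * 2 := by
    nlinarith [sq_nonneg (a + b)]
  have hp : 0 < a * a + b * b := by linarith
  have l1 := abs_lt_of_sq_lt_sq (a := a + b) (b := 2 * (a * a + b * b)) (by nlinarith) (by positivity)
  have l2 := abs_lt_of_sq_lt_sq (a := a - b) (b := 2 * (a * a + b * b)) (by nlinarith) (by positivity)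
  rw [abs_lt] at l1 l2
  have hw2 : 0 < ‖w‖ ^ 2 := by positivity
  refine ⟨(starRingEnd ℂ) d, (map_ne_zero _).2 hd0, ?_, ?_, ?_, ?_⟩
  · rw [e1, hre]; refine mul_pos hw2 ?_; simp; linarith
  · rw [e2, hre]; refine mul_pos hw2 ?_; simp; linarith
  · rw [e3, hre]; refine mul_pos hw2 ?_; simp; linarith
  · rw [e4, hre]; refine mul_pos hw2 ?_; simp; linarith

open Classical in
/-- the number of sides with an odd winding is even -/
theorem fk_sum (hG : Gen q) {O : ℂ} {k : ℝ → ℂ} (hk : ∀ t, exp (k t) = q t - O)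
    (hfar : ∀ a b, SqP q a b → ‖q b - q a‖ < √2 * ‖q a - O‖) :
    ∑ p ∈ (P_fin hG).toFinset, fk k p = 0 := by
  have L := hG.L
  refine cyc_sum hG (fk k) ?_
  rintro ⟨a, b⟩ h
  have h : SqP q a b := h
  obtain ⟨s1, s2, s3, s4⟩ := hG.sq _ _ h.ne h.hD h.hC
  have hr := h.rot L
  have hr2 := hr.rot L
  have hr3 := hr2.rot L
  obtain ⟨c1, c2⟩ := pr_spec L h.hC
  set e := pr q (CC q a b) with he
  have eC : CC q b e = DD q a b := rot_CC c2
  rw [eC] at hr2 hr3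
  obtain ⟨d1, d2⟩ := pr_spec L h.hD
  set dd := pr q (DD q a b) with hdd
  have eC2 : CC q e dd = q a := by
    have : q dd = CC q b e := by rw [eC]; exact d2
    rw [rot_CC this]
    exact rot_DD c2
  rw [eC2, pr_eq L s1 h.ha rfl] at hr3
  have f1 := hfar _ _ h
  have f2 := hfar _ _ hr
  have f3 := hfar _ _ hr2
  have f4 := hfar _ _ hr3
  have i1 : q e = q a + (q b - q a) + I * (q b - q a) := by
    rw [c2]; unfold CC Sq.Cv; ring
  have i2 : q dd = q a + I * (q b - q a) := by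
    rw [d2]; unfold DD Sq.Dv; ring
  have i3 : q b = q a + (q b - q a) := by ring
  have w2 : ‖q e - q b‖ = ‖q b - q a‖ := by
    rw [i1, show q a + (q b - q a) + I * (q b - q a) - q b = I * (q b - q a) by ring, norm_mul,
      norm_I, one_mul]
  have w3 : ‖q dd - q e‖ = ‖q b - q a‖ := by
    rw [i1, i2, show q a + I * (q b - q a) - (q a + (q b - q a) + I * (q b - q a)) =
      -(q b - q a) by ring, norm_neg]
  have w4 : ‖q a - q dd‖ = ‖q b - q a‖ := by
    rw [i2, show q a - (q a + I * (q b - q a)) = -I * (q b - q a) by ring, norm_mul, norm_neg,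
      norm_I, one_mul]
  rw [w2] at f2
  rw [w3, i1] at f3
  rw [w4, i2] at f4
  obtain ⟨ν, hν, n1, n2, n3, n4⟩ := sep_square (A := q a) (w := q b - q a) (O := O)
    (sub_ne_zero.2 h.ne.symm) f1 (by rw [← i3]; exact f2) f3 f4
  rw [← i3] at n2
  rw [← i1] at n3
  rw [← i2] at n4
  have := fk_cyc hk hν n1 n2 n3 n4
  unfold Rt
  simp only
  rw [← he, eC, ← hdd, eC2, pr_eq L s1 h.ha rfl]
  exact this

end Pool.Agent.T2h51.LS
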